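import Pool.Agent.Helper8.GR.Step
import Pool.Agent.Y911.GE.SET

/-!
# Relative form: the weights on the cube

The cube is divided into small cubes; the boundary of the cube is counted as one vertex.
-/

set_option autoImplicit false

open Set Topology Filter unitInterval

noncomputable section

namespace Pool.Agent.Helper8.GR

variable {q : ℕ}

/-- the coordinates of the cube, multiplied by `N` -/
def xc (N : ℕ) (i : Fin q) (k : Fin q → I) : ℝ := N * (k i : ℝ)

/-- the distance of the coordinate to the integers -/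
def dl (N : ℕ) (i : Fin q) (k : Fin q → I) : ℝ := ‖((xc N i k : ℝ) : UnitAddCircle)‖

/-- the distance of the coordinate to the ends -/
def be (N : ℕ) (i : Fin q) (k : Fin q → I) : ℝ := min (xc N i k) (N - xc N i k)

theorem xc_cont (N : ℕ) (i : Fin q) : Continuous (xc N i) := by
  unfold xc
  fun_prop

theorem dl_cont (N : ℕ) (i : Fin q) : Continuous (dl N i) := by
  unfold dl
  exact continuous_norm.comp (AddCircle.continuous_mk' (1 : ℝ) |>.comp (xc_cont N i))

theorem be_cont (N : ℕ) (i : Fin q) : Continuous (be N i) :=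
  (xc_cont N i).min (continuous_const.sub (xc_cont N i))

theorem dl_eq (N : ℕ) (i : Fin q) (k : Fin q → I) :
    dl N i k = |xc N i k - round (xc N i k)| := UnitAddCircle.norm_eq

theorem dl_nonneg (N : ℕ) (i : Fin q) (k : Fin q → I) : 0 ≤ dl N i k := norm_nonneg _

theorem dl_le (N : ℕ) (i : Fin q) (k : Fin q → I) : dl N i k ≤ 1 / 2 := by
  rw [dl_eq]
  exact abs_sub_round _

/-- the distance to the nearest integer is at most the distance to any integer -/
theorem dl_le_int (N : ℕ) (i : Fin q) (k : Fin q → I) (c : ℤ) : dl N i k ≤ |xc N i k - c| := by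
  rw [dl_eq]
  exact round_le _ _

theorem xc_mem (N : ℕ) (i : Fin q) (k : Fin q → I) : 0 ≤ xc N i k ∧ xc N i k ≤ N := by
  have h0 := (k i).2.1
  have h1 := (k i).2.2
  have hN : (0 : ℝ) ≤ N := Nat.cast_nonneg N
  constructor
  · exact mul_nonneg hN h0
  · unfold xc
    nlinarith

/-- near an end of the interval the two distances agree -/
theorem dl_le_be (N : ℕ) (i : Fin q) (k : Fin q → I) : dl N i k ≤ be N i k := by
  obtain ⟨h0, h1⟩ := xc_mem N i k
  refine le_min ?_ ?_
  · have := dl_le_int N i k 0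
    rwa [Int.cast_zero, sub_zero, abs_of_nonneg h0] at this
  · have := dl_le_int N i k (N : ℤ)
    rw [Int.cast_natCast, abs_sub_comm, abs_of_nonneg (by linarith)] at this
    exact this

theorem be_le_dl (N : ℕ) (i : Fin q) (k : Fin q → I) (h : be N i k < 1 / 2) :
    be N i k ≤ dl N i k := by
  obtain ⟨h0, h1⟩ := xc_mem N i k
  rw [dl_eq]
  rcases min_lt_iff.1 h with h | h
  · have h2 : round (xc N i k) = 0 := by
      rw [round_eq_zero_iff]
      exact ⟨by linarith, h⟩
    rw [h2, Int.cast_zero, sub_zero, abs_of_nonneg h0]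
    exact min_le_left _ _
  · have h2 : round (xc N i k) = (N : ℤ) := by
      have h3 : round (xc N i k - ((N : ℤ) : ℝ)) = round (xc N i k) - (N : ℤ) :=
        round_sub_intCast _ _
      have h4 : round (xc N i k - ((N : ℤ) : ℝ)) = 0 := by
        rw [round_eq_zero_iff]
        push_cast
        exact ⟨by linarith, by linarith⟩
      omega
    rw [h2, Int.cast_natCast, abs_sub_comm, abs_of_nonneg (by linarith)]
    exact min_le_right _ _

/-- the weight of the set `S` of coordinates: these are near integers, and near the vertices -/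
def ps (N : ℕ) (S : Finset (Fin q)) (k : Fin q → I) : ℝ :=
  (∏ i ∈ S, (max 0 (1 / 2 - dl N i k) * (∏ l ∈ Sᶜ, max 0 (dl N l k - dl N i k)) *
    ∏ l : Fin q, max 0 (be N l k - dl N i k))) * ∏ l ∈ Sᶜ, dl N l k

theorem ps_cont (N : ℕ) (S : Finset (Fin q)) : Continuous (ps N S) := by
  unfold ps
  refine Continuous.mul (continuous_finsetProd _ fun i _ => ((continuous_const.max
    (continuous_const.sub (dl_cont N i))).mul (continuous_finsetProd _ fun l _ =>
      continuous_const.max ((dl_cont N l).sub (dl_cont N i)))).mul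
      (continuous_finsetProd _ fun l _ => continuous_const.max ((be_cont N l).sub (dl_cont N i))))
    (continuous_finsetProd _ fun l _ => dl_cont N l)

theorem ps_nonneg (N : ℕ) (S : Finset (Fin q)) (k : Fin q → I) : 0 ≤ ps N S k := by
  unfold ps
  refine mul_nonneg (Finset.prod_nonneg fun i _ => mul_nonneg (mul_nonneg (le_max_left _ _)
    (Finset.prod_nonneg fun _ _ => le_max_left _ _))
    (Finset.prod_nonneg fun _ _ => le_max_left _ _)) (Finset.prod_nonneg fun _ _ => dl_nonneg _ _ _)

theorem max_pos_iff' {x : ℝ} : max 0 x ≠ 0 ↔ 0 < x := by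
  constructor
  · intro h
    by_contra h2
    exact h (max_eq_left (not_lt.1 h2))
  · intro h
    rw [max_eq_right h.le]
    exact h.ne'

theorem ps_pos (N : ℕ) (S : Finset (Fin q)) (k : Fin q → I) :
    0 < ps N S k ↔ (∀ i ∈ S, dl N i k < 1 / 2 ∧ (∀ l, l ∉ S → dl N i k < dl N l k) ∧
      ∀ l, dl N i k < be N l k) ∧ ∀ l, l ∉ S → 0 < dl N l k := by
  constructor
  · intro h
    have h1 : ps N S k ≠ 0 := h.ne'
    unfold ps at h1
    have h2 := left_ne_zero_of_mul h1
    have h3 := right_ne_zero_of_mul h1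
    rw [Finset.prod_ne_zero_iff] at h2 h3
    refine ⟨fun i hi => ?_, fun l hl => ?_⟩
    · have h4 := h2 i hi
      have h5 := left_ne_zero_of_mul h4
      have h6 := right_ne_zero_of_mul h4
      have h7 := left_ne_zero_of_mul h5
      have h8 := right_ne_zero_of_mul h5
      rw [Finset.prod_ne_zero_iff] at h6 h8
      refine ⟨?_, fun l hl => ?_, fun l => ?_⟩
      · have := max_pos_iff'.1 h7
        linarith
      · have := max_pos_iff'.1 (h8 l (Finset.mem_compl.2 hl))
        linarith
      · have := max_pos_iff'.1 (h6 l (Finset.mem_univ _))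
        linarith
    · exact lt_of_le_of_ne (dl_nonneg _ _ _) (h3 l (Finset.mem_compl.2 hl)).symm
  · rintro ⟨h1, h2⟩
    refine lt_of_le_of_ne (ps_nonneg _ _ _) (Ne.symm ?_)
    unfold ps
    refine mul_ne_zero (Finset.prod_ne_zero_iff.2 fun i hi => ?_)
      (Finset.prod_ne_zero_iff.2 fun l hl => (h2 l (Finset.mem_compl.1 hl)).ne')
    obtain ⟨a, b, c⟩ := h1 i hi
    refine mul_ne_zero (mul_ne_zero (max_pos_iff'.2 (by linarith))
      (Finset.prod_ne_zero_iff.2 fun l hl => max_pos_iff'.2 ?_))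
      (Finset.prod_ne_zero_iff.2 fun l _ => max_pos_iff'.2 ?_)
    · have := b l (Finset.mem_compl.1 hl)
      linarith
    · have := c l
      linarith

theorem ps_uniq (N : ℕ) (S T : Finset (Fin q)) (hST : S.card = T.card) (k : Fin q → I)
    (hS : 0 < ps N S k) (hT : 0 < ps N T k) : S = T := by
  rw [ps_pos] at hS hT
  by_contra hne
  have h1 : ¬ S ⊆ T := fun h => hne (Finset.eq_of_subset_of_card_le h hST.ge)
  have h2 : ¬ T ⊆ S := fun h => hne (Finset.eq_of_subset_of_card_le h hST.le).symm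
  rw [Finset.not_subset] at h1 h2
  obtain ⟨i, hi, hi'⟩ := h1
  obtain ⟨j, hj, hj'⟩ := h2
  have a := (hS.1 i hi).2.1 j hj'
  have b := (hT.1 j hj).2.1 i hi'
  linarith

/-- the weight of the boundary -/
def bd (N : ℕ) (k : Fin q → I) : ℝ := ∑ i, max 0 (1 / 2 - be N i k)

theorem bd_cont (N : ℕ) : Continuous (bd (q := q) N) :=
  continuous_finsetSum _ fun i _ => continuous_const.max (continuous_const.sub (be_cont N i))

theorem bd_nonneg (N : ℕ) (k : Fin q → I) : 0 ≤ bd N k :=
  Finset.sum_nonneg fun _ _ => le_max_left _ _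

theorem bd_pos (N : ℕ) (k : Fin q → I) : 0 < bd N k ↔ ∃ i, be N i k < 1 / 2 := by
  constructor
  · intro h
    by_contra hn
    push Not at hn
    have : bd N k ≤ 0 := Finset.sum_nonpos fun i _ => (max_eq_left (by linarith [hn i])).le
    linarith
  · rintro ⟨i, hi⟩
    refine Finset.sum_pos' (fun _ _ => le_max_left _ _) ⟨i, Finset.mem_univ _, ?_⟩
    rw [max_eq_right (by linarith)]
    linarith

/-- the vertices are away from the boundary -/
theorem disj (N : ℕ) (k : Fin q → I) (h : 0 < ps N Finset.univ k) : bd N k = 0 := by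
  by_contra h0
  have h1 : 0 < bd N k := lt_of_le_of_ne (bd_nonneg _ _) (Ne.symm h0)
  obtain ⟨i, hi⟩ := (bd_pos N k).1 h1
  have h2 := ((ps_pos N _ k).1 h).1 i (Finset.mem_univ _)
  have h3 := h2.2.2 i
  have h4 := be_le_dl N i k hi
  linarith

theorem cover (N : ℕ) (k : Fin q → I) :
    0 < bd N k ∨ ∃ S : Finset (Fin q), 0 < ps N S k := by
  classical
  by_cases h : 0 < bd N k
  · exact Or.inl h
  · right
    rw [bd_pos] at h
    push Not at h
    refine ⟨Finset.univ.filter fun i => dl N i k < 1 / 2, ?_⟩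
    rw [ps_pos]
    have e : ∀ l, l ∉ Finset.univ.filter (fun i => dl N i k < 1 / 2) → dl N l k = 1 / 2 := by
      intro l hl
      rw [Finset.mem_filter] at hl
      refine le_antisymm (dl_le _ _ _) ?_
      by_contra hh
      exact hl ⟨Finset.mem_univ _, not_le.1 hh⟩
    refine ⟨fun i hi => ?_, fun l hl => ?_⟩
    · have h1 := (Finset.mem_filter.1 hi).2
      exact ⟨h1, fun l hl => by rw [e l hl]; exact h1, fun l => h1.trans_le (h l)⟩
    · rw [e l hl]
      norm_num

theorem be_bdry (N : ℕ) (k : Fin q → I) (hk : k ∈ Cube.boundary (Fin q)) :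
    ∃ i, be N i k = 0 ∧ dl N i k = 0 := by
  obtain ⟨i, hi⟩ := hk
  refine ⟨i, ?_⟩
  have hN : (0 : ℝ) ≤ N := Nat.cast_nonneg N
  have h1 : be N i k ≤ 0 := by
    rcases hi with hi | hi
    · refine (min_le_left _ _).trans ?_
      unfold xc
      rw [hi]
      simp
    · refine (min_le_right _ _).trans ?_
      unfold xc
      rw [hi]
      simp
  have h2 := dl_le_be N i k
  have h3 := dl_nonneg N i k
  exact ⟨by linarith, by linarith⟩

theorem ps_bdry (N : ℕ) (S : Finset (Fin q)) (k : Fin q → I) (hk : k ∈ Cube.boundary (Fin q)) :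
    ps N S k = 0 := by
  by_contra h0
  have h1 : 0 < ps N S k := lt_of_le_of_ne (ps_nonneg _ _ _) (Ne.symm h0)
  obtain ⟨h2, h3⟩ := (ps_pos N S k).1 h1
  obtain ⟨i, hi, hi'⟩ := be_bdry N k hk
  by_cases hS : i ∈ S
  · have := (h2 i hS).2.2 i
    linarith
  · have := h3 i hS
    linarith

theorem bd_bdry (N : ℕ) (k : Fin q → I) (hk : k ∈ Cube.boundary (Fin q)) : 0 < bd N k := by
  rw [bd_pos]
  obtain ⟨i, hi, -⟩ := be_bdry N k hk
  exact ⟨i, by rw [hi]; norm_num⟩

/-- the cell of the set `S` of coordinates with the integers `c` -/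
def W (N : ℕ) (S : Finset (Fin q)) (c : Fin q → ℤ) : Set (Fin q → I) :=
  {k | 0 < ps N S k ∧ (∀ i ∈ S, |xc N i k - c i| < 1 / 2) ∧
    ∀ l, l ∉ S → (c l : ℝ) < xc N l k ∧ xc N l k < c l + 1}

theorem W_open (N : ℕ) (S : Finset (Fin q)) (c : Fin q → ℤ) : IsOpen (W N S c) := by
  have e : W N S c = {k | 0 < ps N S k} ∩ ((⋂ i ∈ S, {k | |xc N i k - c i| < 1 / 2}) ∩
      ⋂ l ∈ Sᶜ, ({k | (c l : ℝ) < xc N l k} ∩ {k | xc N l k < c l + 1})) := by
    ext k
    simp only [W, mem_ofPred_eq, mem_inter_iff, mem_iInter, Finset.mem_compl]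
  rw [e]
  refine (isOpen_lt continuous_const (ps_cont N S)).inter (IsOpen.inter ?_ ?_)
  · refine isOpen_biInter_finset fun i _ => ?_
    exact isOpen_lt ((xc_cont N i).sub continuous_const).abs continuous_const
  · refine isOpen_biInter_finset fun l _ => ?_
    exact (isOpen_lt continuous_const (xc_cont N l)).inter
      (isOpen_lt (xc_cont N l) continuous_const)

theorem W_small (N : ℕ) (hN : 1 ≤ N) (S : Finset (Fin q)) (c : Fin q → ℤ) (k k' : Fin q → I)
    (hk : k ∈ W N S c) (hk' : k' ∈ W N S c) : dist k k' ≤ 1 / N := by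
  have hN0 : (0 : ℝ) < N := by exact_mod_cast hN
  rw [dist_pi_le_iff (by positivity)]
  intro i
  have h : |xc N i k - xc N i k'| ≤ 1 := by
    by_cases hi : i ∈ S
    · have h1 := abs_lt.1 (hk.2.1 i hi)
      have h2 := abs_lt.1 (hk'.2.1 i hi)
      rw [abs_le]
      exact ⟨by linarith, by linarith⟩
    · have h1 := hk.2.2 i hi
      have h2 := hk'.2.2 i hi
      rw [abs_le]
      exact ⟨by linarith, by linarith⟩
  have e : xc N i k - xc N i k' = N * ((k i : ℝ) - (k' i : ℝ)) := by
    unfold xc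
    ring
  rw [e, abs_mul, abs_of_pos hN0] at h
  rw [Subtype.dist_eq, Real.dist_eq, le_div_iff₀ hN0]
  linarith

/-- the integers of the cell of a point -/
def cI (N : ℕ) (S : Finset (Fin q)) (k : Fin q → I) (i : Fin q) : ℤ :=
  open Classical in if i ∈ S then round (xc N i k) else ⌊xc N i k⌋

theorem mem_W (N : ℕ) (S : Finset (Fin q)) (k : Fin q → I) (h : 0 < ps N S k) :
    k ∈ W N S (cI N S k) := by
  obtain ⟨h1, h2⟩ := (ps_pos N S k).1 h
  refine ⟨h, fun i hi => ?_, fun l hl => ?_⟩
  · unfold cI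
    rw [if_pos hi, ← dl_eq]
    exact (h1 i hi).1
  · unfold cI
    rw [if_neg hl]
    refine ⟨lt_of_le_of_ne (Int.floor_le _) ?_, Int.lt_floor_add_one _⟩
    intro h3
    have h4 := dl_le_int N l k ⌊xc N l k⌋
    have h5 := h2 l hl
    rw [h3, sub_self, abs_zero] at h4
    linarith

theorem cI_eq (N : ℕ) (S : Finset (Fin q)) (c : Fin q → ℤ) (k : Fin q → I)
    (h : k ∈ W N S c) : cI N S k = c := by
  funext i
  unfold cI
  by_cases hi : i ∈ S
  · rw [if_pos hi]
    have h1 := abs_lt.1 (h.2.1 i hi)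
    have h2 := abs_le.1 (abs_sub_round (xc N i k))
    have h3 : ((round (xc N i k) : ℤ) : ℝ) < c i + 1 := by linarith
    have h4 : ((c i : ℤ) : ℝ) < round (xc N i k) + 1 := by linarith
    have h5 : round (xc N i k) < c i + 1 := by exact_mod_cast h3
    have h6 : c i < round (xc N i k) + 1 := by exact_mod_cast h4
    omega
  · rw [if_neg hi]
    have h1 := h.2.2 i hi
    rw [Int.floor_eq_iff]
    exact ⟨h1.1.le, h1.2⟩

end Pool.Agent.Helper8.GR
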