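import Pool.Agent.Helper8.GR.Cells

/-!
# Relative form: the local data on the cube
-/

set_option autoImplicit false

open Set Topology Filter unitInterval

noncomputable section

namespace Pool.Agent.Helper8.GR

open Pool.Agent.Y489.GE Pool.Agent.R203.IF Pool.Agent.Y911.GE

variable {q : ℕ}

/-- the distance from the centre -/
def sc (k : Fin q → I) : ℝ := ‖fun i => (k i : ℝ) - 1 / 2‖

theorem sc_cont : Continuous (sc (q := q)) := by
  unfold sc
  fun_prop

theorem le_sc (k : Fin q → I) (i : Fin q) : |(k i : ℝ) - 1 / 2| ≤ sc k := by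
  have := norm_le_pi_norm (fun i => (k i : ℝ) - 1 / 2) i
  rwa [Real.norm_eq_abs] at this

theorem sc_le (k : Fin q → I) : sc k ≤ 1 / 2 := by
  unfold sc
  rw [pi_norm_le_iff_of_nonneg (by norm_num)]
  intro i
  rw [Real.norm_eq_abs, abs_le]
  exact ⟨by linarith [(k i).2.1], by linarith [(k i).2.2]⟩

/-- the radial projection to the boundary -/
def pr (k : Fin q → I) : Fin q → I := fun i =>
  projIcc (0 : ℝ) 1 zero_le_one (1 / 2 + ((k i : ℝ) - 1 / 2) / (2 * sc k))

theorem pr_val (k : Fin q → I) (hk : 0 < sc k) (i : Fin q) :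
    ((pr k i : I) : ℝ) = 1 / 2 + ((k i : ℝ) - 1 / 2) / (2 * sc k) := by
  unfold pr
  have h1 := abs_le.1 (le_sc k i)
  have h2 : 1 / 2 + ((k i : ℝ) - 1 / 2) / (2 * sc k) ∈ Icc (0 : ℝ) 1 := by
    constructor
    · have : -(1 / 2) ≤ ((k i : ℝ) - 1 / 2) / (2 * sc k) := by
        rw [le_div_iff₀ (by positivity)]
        linarith
      linarith
    · have : ((k i : ℝ) - 1 / 2) / (2 * sc k) ≤ 1 / 2 := by
        rw [div_le_iff₀ (by positivity)]
        linarith
      linarith
  rw [projIcc_of_mem zero_le_one h2]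

theorem pr_cont : ContinuousOn (pr (q := q)) {k | 0 < sc k} := by
  rw [continuousOn_pi]
  intro i
  unfold pr
  refine continuous_projIcc.comp_continuousOn ?_
  refine continuousOn_const.add (ContinuousOn.div ?_ ?_ ?_)
  · fun_prop
  · exact (continuous_const.mul sc_cont).continuousOn
  · intro k hk
    have : 0 < sc k := hk
    positivity

theorem pr_dist (k : Fin q → I) (hk : 0 < sc k) : dist (pr k) k ≤ 1 / 2 - sc k := by
  have hs := sc_le k
  rw [dist_pi_le_iff (by linarith)]
  intro i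
  rw [Subtype.dist_eq, Real.dist_eq, pr_val k hk i]
  have e : 1 / 2 + ((k i : ℝ) - 1 / 2) / (2 * sc k) - (k i : ℝ) =
      ((k i : ℝ) - 1 / 2) / sc k * (1 / 2 - sc k) := by
    field_simp
    ring
  rw [e, abs_mul, abs_of_nonneg (show 0 ≤ 1 / 2 - sc k by linarith), abs_div, abs_of_pos hk]
  have h1 : |(k i : ℝ) - 1 / 2| / sc k ≤ 1 := by
    rw [div_le_one hk]
    exact le_sc k i
  nlinarith

theorem pr_mem (hq : 1 ≤ q) (k : Fin q → I) (hk : 0 < sc k) : pr k ∈ Cube.boundary (Fin q) := by
  have hne : Nonempty (Fin q) := ⟨⟨0, hq⟩⟩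
  obtain ⟨i, hi⟩ : ∃ i, |(k i : ℝ) - 1 / 2| = sc k := by
    by_contra hn
    push Not at hn
    have h1 : sc k < sc k := by
      conv_lhs => rw [sc]
      rw [pi_norm_lt_iff hk]
      intro i
      rw [Real.norm_eq_abs]
      exact lt_of_le_of_ne (le_sc k i) (hn i)
    exact lt_irrefl _ h1
  refine ⟨i, ?_⟩
  have h2 := pr_val k hk i
  rcases abs_choice ((k i : ℝ) - 1 / 2) with h | h
  · right
    rw [h] at hi
    apply Subtype.ext
    rw [h2, hi, Set.Icc.coe_one]
    field_simp
    norm_num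
  · left
    rw [h] at hi
    have hi' : (k i : ℝ) - 1 / 2 = - sc k := by linarith
    apply Subtype.ext
    rw [h2, hi', Set.Icc.coe_zero]
    field_simp
    norm_num

theorem sc_bdry (k : Fin q → I) (hk : k ∈ Cube.boundary (Fin q)) : sc k = 1 / 2 := by
  obtain ⟨i, hi⟩ := hk
  refine le_antisymm (sc_le k) ?_
  have h1 := le_sc k i
  rcases hi with hi | hi
  · rw [hi, Set.Icc.coe_zero, zero_sub, abs_neg, abs_of_pos (by norm_num)] at h1
    exact h1
  · rw [hi, Set.Icc.coe_one, abs_of_pos (by norm_num)] at h1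
    linarith

theorem pr_bdry (k : Fin q → I) (hk : k ∈ Cube.boundary (Fin q)) : pr k = k := by
  have h1 := sc_bdry k hk
  funext i
  apply Subtype.ext
  rw [pr_val k (by rw [h1]; norm_num) i, h1]
  ring

theorem bd_sc (N : ℕ) (hN : 2 ≤ N) (k : Fin q → I) (h : 0 < bd N k) :
    0 < sc k ∧ 1 / 2 - sc k ≤ 1 / N := by
  obtain ⟨i, hi⟩ := (bd_pos N k).1 h
  have hN0 : (2 : ℝ) ≤ N := by exact_mod_cast hN
  have hNp : (0 : ℝ) < N := by linarith
  have h1 := abs_le.1 (le_sc k i)
  have h2 : 1 / 2 - 1 / (2 * N) < sc k := by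
    rcases min_lt_iff.1 hi with h | h
    · unfold xc at h
      have h3 : (k i : ℝ) < 1 / (2 * N) := by
        rw [lt_div_iff₀ (by positivity)]
        linarith
      linarith
    · unfold xc at h
      have h3 : 1 - (k i : ℝ) < 1 / (2 * N) := by
        rw [lt_div_iff₀ (by positivity)]
        linarith
      linarith
  have h4 : 1 / (2 * (N : ℝ)) ≤ 1 / 4 := by
    apply one_div_le_one_div_of_le (by norm_num)
    linarith
  have h5 : 1 / (2 * (N : ℝ)) ≤ 1 / N := by
    apply one_div_le_one_div_of_le hNp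
    linarith
  exact ⟨by linarith, by linarith⟩

/-- short paths as Moore paths -/
theorem short {X : Type} [MetricSpace X] {r : ℝ} {m : X → X → ℝ → X} (hm : GMap X r m)
    {F : Set X} {ε : ℝ} (hε : 0 < ε) (hεr : ε ≤ r) {y z : X} (hy : y ∈ F) (hyz : dist y z ≤ ε) :
    (fun τ : ℝ => m y z (max 0 (min 1 (τ / ε)))) ∈ PF F ε ∧
      (fun τ : ℝ => m y z (max 0 (min 1 (τ / ε)))) ε = z := by
  have hu : ∀ τ : ℝ, max 0 (min 1 (τ / ε)) ∈ Icc (0 : ℝ) 1 := fun τ =>
    ⟨le_max_left _ _, max_le zero_le_one (min_le_left _ _)⟩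
  have hr := hyz.trans hεr
  have hend : ∀ t, ε ≤ t → m y z (max 0 (min 1 (t / ε))) = z := by
    intro t ht
    rw [min_eq_left (by rwa [le_div_iff₀ hε, one_mul]), max_eq_right zero_le_one]
    exact hm.one _ _ hr
  have hst : ∀ t, t ≤ 0 → m y z (max 0 (min 1 (t / ε))) = y := by
    intro t ht
    rw [max_eq_left ((min_le_right _ _).trans (div_nonpos_of_nonpos_of_nonneg ht hε.le))]
    exact hm.zero _ _ hr
  refine ⟨⟨fun s t => ?_, ?_, fun t ht => ?_, fun t ht => ?_⟩, hend ε le_rfl⟩
  · dsimp only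
    rw [hm.dist_eq _ _ hr _ (hu s) _ (hu t)]
    have e1 : |max 0 (min 1 (s / ε)) - max 0 (min 1 (t / ε))| ≤ |s - t| / ε := by
      have e2 := abs_max_sub_max_le_max 0 (min 1 (s / ε)) 0 (min 1 (t / ε))
      have e3 := abs_min_sub_min_le_max 1 (s / ε) 1 (t / ε)
      rw [sub_self, abs_zero] at e2 e3
      have e4 : s / ε - t / ε = (s - t) / ε := by ring
      rw [e4, abs_div, abs_of_pos hε] at e3
      have hp : 0 ≤ |s - t| / ε := by positivity
      exact e2.trans (max_le hp (e3.trans (max_le hp le_rfl)))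
    calc _ ≤ |s - t| / ε * ε := mul_le_mul e1 hyz dist_nonneg (by positivity)
      _ = |s - t| := by field_simp
  · dsimp only
    rw [hst 0 le_rfl]
    exact hy
  · dsimp only
    rw [hst t ht, hst 0 le_rfl]
  · dsimp only
    rw [hend t ht, hend ε le_rfl]

theorem setR (hq : 1 ≤ q) (X : Type) [MetricSpace X] (r : ℝ) (m : X → X → ℝ → X)
    (hm : GMap X r m) (F : Set X) (p : X) (hpF : p ∈ F) (D : ℝ) (hD : 0 ≤ D)
    (hpath : ∀ y : X, ∃ c ∈ Pa p D, c D = y) (ε : ℝ) (hε : 0 < ε) (hεr : ε ≤ r)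
    (f : (Fin q → I) → X) (hf : Continuous f) (hfF : ∀ k ∈ Cube.boundary (Fin q), f k ∈ F) :
    ∃ (t : ℕ → (Fin q → I) → ℝ) (ρ : ℕ → (Fin q → I) → ℝ → X),
      DataR F p (D + ε) q f (Cube.boundary (Fin q)) t ρ := by
  classical
  have hu := CompactSpace.uniformContinuous_of_continuous hf
  rw [Metric.uniformContinuous_iff] at hu
  obtain ⟨δ, hδ, hfδ⟩ := hu ε hε
  obtain ⟨N, hN⟩ := exists_nat_gt (max 2 (1 / δ))
  have hN2 : 2 ≤ N := by
    have : (2 : ℝ) < N := (le_max_left _ _).trans_lt hN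
    have : 2 < N := by exact_mod_cast this
    omega
  have hN1 : 1 ≤ N := by omega
  have hNp : (0 : ℝ) < N := by exact_mod_cast (show 0 < N by omega)
  have hNδ : 1 / (N : ℝ) < δ := by
    have := (le_max_right 2 (1 / δ)).trans_lt hN
    rw [div_lt_iff₀ hδ] at this
    rw [div_lt_iff₀ hNp]
    linarith
  have hfN : ∀ k k' : Fin q → I, dist k k' ≤ 1 / N → dist (f k) (f k') ≤ ε := by
    intro k k' h
    exact (hfδ (lt_of_le_of_lt h hNδ)).le
  -- the families of the cells
  have hR : ∀ (S : Finset (Fin q)) (c : Fin q → ℤ), ∃ R : (Fin q → I) → ℝ → X,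
      ContinuousOn R (W N S c) ∧
      ∀ k ∈ W N S c, R k ∈ Pa p (D + ε) ∧ R k (D + ε) = f k := by
    intro S c
    by_cases h : ∃ k₁, k₁ ∈ W N S c
    · obtain ⟨k₁, h1⟩ := h
      obtain ⟨c', hc, hcD⟩ := hpath (f k₁)
      obtain ⟨R, R1, R2, -⟩ := fam r m hm p D ε hD hε hεr f hf (W N S c) (f k₁) c' hc hcD
        (fun k hk => hfN _ _ (W_small N hN1 S c k₁ k h1 hk))
      exact ⟨R, R1, R2⟩
    · exact ⟨fun _ _ => p, continuousOn_const, fun k hk => (h ⟨k, hk⟩).elim⟩
  choose R R1 R2 using hR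
  let Q : Finset (Fin q) → (Fin q → I) → ℝ → X := fun S k => R S (cI N S k) k
  have hQ1 : ∀ S k, 0 < ps N S k → ContinuousAt (Q S) k := by
    intro S k hk
    have h1 := mem_W N S k hk
    have h2 := (R1 S _ k h1).continuousAt ((W_open N S _).mem_nhds h1)
    refine h2.congr ?_
    filter_upwards [(W_open N S _).mem_nhds h1] with k' hk'
    show R S (cI N S k) k' = R S (cI N S k') k'
    rw [cI_eq N S _ k' hk']
  have hQ2 : ∀ S k, 0 < ps N S k → Q S k ∈ Pa p (D + ε) ∧ Q S k (D + ε) = f k :=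
    fun S k hk => R2 S _ k (mem_W N S k hk)
  -- the collar
  let cp : (Fin q → I) → ℝ → X := fun k τ => m (f (pr k)) (f k) (max 0 (min 1 (τ / ε)))
  have hcd : ∀ k, 0 < bd N k → dist (f (pr k)) (f k) ≤ ε := by
    intro k hk
    obtain ⟨h1, h2⟩ := bd_sc N hN2 k hk
    exact hfN _ _ ((pr_dist k h1).trans h2)
  have hcp1 : ∀ k, 0 < bd N k → ContinuousAt cp k := by
    intro k hk
    have hO : IsOpen {k | 0 < bd (q := q) N k} := isOpen_lt continuous_const (bd_cont N)
    have hon : ContinuousOn cp {k | 0 < bd (q := q) N k} := by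
      rw [continuousOn_pi]
      intro τ
      have h1 : ContinuousOn (fun k : Fin q → I => ((f (pr k), f k, max 0 (min 1 (τ / ε))) :
          X × X × ℝ)) {k | 0 < bd (q := q) N k} := by
        refine ContinuousOn.prodMk (hf.comp_continuousOn (pr_cont.mono fun k hk => ?_))
          (hf.continuousOn.prodMk continuousOn_const)
        exact (bd_sc N hN2 k hk).1
      exact hm.cont.comp h1 fun k hk => ⟨(hcd k hk).trans hεr,
        ⟨le_max_left _ _, max_le zero_le_one (min_le_left _ _)⟩⟩
    exact hon.continuousAt (hO.mem_nhds hk)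
  have hcp2 : ∀ k, 0 < bd N k → cp k ∈ PF F (D + ε) ∧ cp k (D + ε) = f k := by
    intro k hk
    obtain ⟨h1, h2⟩ := short hm hε hεr (hfF _ (pr_mem hq k (bd_sc N hN2 k hk).1)) (hcd k hk)
    refine ⟨PF.mono (by linarith) h1, ?_⟩
    have h3 := h1.2.2.2 (D + ε) (by linarith)
    exact h3.trans h2
  -- the weights and the families
  let t : ℕ → (Fin q → I) → ℝ := fun j k => (∑ S ∈ Finset.univ.filter
    (fun S : Finset (Fin q) => S.card + j = q), ps N S k) + if j = 0 then bd N k else 0
  let ρ : ℕ → (Fin q → I) → ℝ → X := fun j k =>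
    if h : ∃ S : Finset (Fin q), S.card + j = q ∧ 0 < ps N S k then Q h.choose k
    else cp k
  have hρ : ∀ j k (S : Finset (Fin q)), S.card + j = q → 0 < ps N S k → ρ j k = Q S k := by
    intro j k S h1 h2
    have hex : ∃ S : Finset (Fin q), S.card + j = q ∧ 0 < ps N S k := ⟨S, h1, h2⟩
    show (if h : ∃ S : Finset (Fin q), S.card + j = q ∧ 0 < ps N S k then Q h.choose k
      else cp k) = Q S k
    rw [dif_pos hex]
    have := hex.choose_spec
    rw [ps_uniq N hex.choose S (by omega) k this.2 h2]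
  have hρ' : ∀ j k, (¬ ∃ S : Finset (Fin q), S.card + j = q ∧ 0 < ps N S k) → ρ j k = cp k := by
    intro j k hn
    show (if h : ∃ S : Finset (Fin q), S.card + j = q ∧ 0 < ps N S k then Q h.choose k
      else cp k) = cp k
    rw [dif_neg hn]
  have hs0 : ∀ j k, 0 ≤ ∑ S ∈ Finset.univ.filter
      (fun S : Finset (Fin q) => S.card + j = q), ps N S k := fun j k =>
    Finset.sum_nonneg fun S _ => ps_nonneg N S k
  have hspos : ∀ j k, 0 < ∑ S ∈ Finset.univ.filter
      (fun S : Finset (Fin q) => S.card + j = q), ps N S k ↔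
      ∃ S : Finset (Fin q), S.card + j = q ∧ 0 < ps N S k := by
    intro j k
    constructor
    · intro h
      by_contra hn
      push Not at hn
      have : ∑ S ∈ Finset.univ.filter
        (fun S : Finset (Fin q) => S.card + j = q), ps N S k ≤ 0 :=
        Finset.sum_nonpos fun S hS => hn S (Finset.mem_filter.1 hS).2
      linarith
    · rintro ⟨S, h1, h2⟩
      exact Finset.sum_pos' (fun T _ => ps_nonneg N T k)
        ⟨S, Finset.mem_filter.2 ⟨Finset.mem_univ _, h1⟩, h2⟩
  have htpos : ∀ j k, 0 < t (j + 1) k ↔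
      ∃ S : Finset (Fin q), S.card + (j + 1) = q ∧ 0 < ps N S k := by
    intro j k
    rw [← hspos]
    show 0 < (_ + if j + 1 = 0 then bd N k else 0) ↔ _
    rw [if_neg (by omega), add_zero]
  have ht0pos : ∀ k, 0 < t 0 k ↔ 0 < ps N Finset.univ k ∨ 0 < bd N k := by
    intro k
    have e : t 0 k = (∑ S ∈ Finset.univ.filter
        (fun S : Finset (Fin q) => S.card + 0 = q), ps N S k) + bd N k := by
      show (_ + if (0 : ℕ) = 0 then bd N k else 0) = _
      rw [if_pos rfl]
    rw [e]
    have h1 := hs0 0 k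
    have h2 := bd_nonneg N k
    constructor
    · intro h
      by_cases h3 : 0 < bd N k
      · exact Or.inr h3
      · left
        have h4 : 0 < ∑ S ∈ Finset.univ.filter
          (fun S : Finset (Fin q) => S.card + 0 = q), ps N S k := by linarith
        obtain ⟨S, h5, h6⟩ := (hspos 0 k).1 h4
        have : S = Finset.univ := by
          rw [← Finset.card_eq_iff_eq_univ, Fintype.card_fin]
          omega
        rwa [this] at h6
    · rintro (h | h)
      · have := (hspos 0 k).2 ⟨Finset.univ, by simp, h⟩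
        linarith
      · linarith
  have hno : ∀ k, 0 < bd N k → ¬ ∃ S : Finset (Fin q), S.card + 0 = q ∧ 0 < ps N S k := by
    rintro k hk ⟨S, h1, h2⟩
    have : S = Finset.univ := by
      rw [← Finset.card_eq_iff_eq_univ, Fintype.card_fin]
      omega
    rw [this] at h2
    have := disj N k h2
    linarith
  refine ⟨t, ρ, ?_, ?_, ?_, ?_, ?_, ?_, ?_⟩
  · intro j
    refine (continuous_finsetSum _ fun S _ => ps_cont N S).add ?_
    by_cases hj : j = 0
    · simp only [if_pos hj]
      exact bd_cont N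
    · simp only [if_neg hj]
      exact continuous_const
  · intro j k
    refine add_nonneg (hs0 j k) ?_
    split_ifs
    · exact bd_nonneg N k
    · exact le_rfl
  · intro k
    rcases cover N k with h | ⟨S, h⟩
    · exact ⟨0, Nat.zero_le _, (ht0pos k).2 (Or.inr h)⟩
    · have hc : S.card ≤ q := by
        have := Finset.card_le_univ S
        rwa [Fintype.card_fin] at this
      refine ⟨q - S.card, by omega, ?_⟩
      rcases Nat.eq_zero_or_pos (q - S.card) with h0 | h0
      · rw [h0, ht0pos]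
        left
        have : S = Finset.univ := by
          rw [← Finset.card_eq_iff_eq_univ, Fintype.card_fin]
          omega
        rwa [this] at h
      · obtain ⟨j, hj⟩ : ∃ j, q - S.card = j + 1 := ⟨q - S.card - 1, by omega⟩
        rw [hj, htpos]
        exact ⟨S, by omega, h⟩
  · intro j k hk
    apply ContinuousAt.continuousWithinAt
    have hk' : 0 < t j k := hk
    by_cases hex : ∃ S : Finset (Fin q), S.card + j = q ∧ 0 < ps N S k
    · obtain ⟨S, h1, h2⟩ := hex
      have hopen : IsOpen {k | 0 < ps N S k} := isOpen_lt continuous_const (ps_cont N S)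
      refine (hQ1 S k h2).congr ?_
      filter_upwards [hopen.mem_nhds h2] with k' hk'
      exact (hρ j k' S h1 hk').symm
    · rcases j with _ | j
      · have h1 : 0 < bd N k := by
          rcases (ht0pos k).1 hk' with h | h
          · exact (hex ⟨Finset.univ, by simp, h⟩).elim
          · exact h
        have hO : IsOpen {k | 0 < bd (q := q) N k} := isOpen_lt continuous_const (bd_cont N)
        refine (hcp1 k h1).congr ?_
        filter_upwards [hO.mem_nhds h1] with k' hk'
        exact (hρ' 0 k' (hno k' hk')).symm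
      · exact (hex ((htpos j k).1 hk')).elim
  · intro k hk
    rcases (ht0pos k).1 hk with h | h
    · rw [hρ 0 k Finset.univ (by simp) h]
      obtain ⟨h1, h2⟩ := hQ2 Finset.univ k h
      exact ⟨Pa.toPF hpF h1, h2⟩
    · rw [hρ' 0 k (hno k h)]
      exact hcp2 k h
  · intro j k hk
    obtain ⟨S, h1, h2⟩ := (htpos j k).1 hk
    rw [hρ (j + 1) k S h1 h2]
    exact hQ2 S k h2
  · intro k hk
    have hb := bd_bdry N k hk
    refine ⟨(ht0pos k).2 (Or.inr hb), fun j => ?_, ?_⟩
    · by_contra h0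
      have h1 : 0 < t (j + 1) k := by
        refine lt_of_le_of_ne ?_ (Ne.symm h0)
        refine add_nonneg (hs0 _ k) ?_
        rw [if_neg (by omega)]
      obtain ⟨S, h2, h3⟩ := (htpos j k).1 h1
      rw [ps_bdry N S k hk] at h3
      exact lt_irrefl _ h3
    · rw [hρ' 0 k (hno k hb)]
      funext τ
      show m (f (pr k)) (f k) (max 0 (min 1 (τ / ε))) = f k
      rw [pr_bdry k hk]
      exact hm.self (hε.le.trans hεr) _ ⟨le_max_left _ _, max_le zero_le_one (min_le_left _ _)⟩

end Pool.Agent.Helper8.GR
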