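import Pool.Agent.Helper8.GR.Inv

/-!
# Pairs of isometric involutions
-/

set_option autoImplicit false

open Set Topology Filter

noncomputable section

namespace Pool.Agent.Helper8.GR

open Pool.Agent.Y489.GE

/-- a closed geodesic made of the images of one piece under an isometry of finite order -/
theorem pieces {X : Type} [MetricSpace X] (f : X ≃ᵢ X) (m : ℕ) (hm : 1 ≤ m) (hfm : f ^ m = 1)
    (c : ℝ → X) (ℓ ε : ℝ) (hε : 0 < ε) (hℓ : ε ≤ ℓ)
    (h1 : ∀ s ∈ Icc (0 : ℝ) ℓ, ∀ t ∈ Icc (0 : ℝ) ℓ, s ≤ t → t - s ≤ ε → dist (c s) (c t) = t - s)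
    (h2 : ∀ s t : ℝ, 0 ≤ s → 0 ≤ t → s + t ≤ ε → dist (c (ℓ - s)) (f (c t)) = s + t) :
    ClosedGeod X (m * ℓ) := by
  have hpos : 0 < ℓ := hε.trans_le hℓ
  set γ : ℝ → X := fun t => (f ^ ⌊t / ℓ⌋) (c (Int.fract (t / ℓ) * ℓ)) with hγ
  have hsplit : ∀ t : ℝ, t = ⌊t / ℓ⌋ * ℓ + Int.fract (t / ℓ) * ℓ := by
    intro t
    rw [← add_mul, Int.floor_add_fract]
    field_simp
  have hfr : ∀ t : ℝ, Int.fract (t / ℓ) * ℓ ∈ Icc (0 : ℝ) ℓ := fun t =>
    ⟨mul_nonneg (Int.fract_nonneg _) hpos.le, by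
      have := (Int.fract_lt_one (t / ℓ)).le
      nlinarith⟩
  have hloc : ∀ s t : ℝ, s ≤ t → t - s ≤ ε → dist (γ s) (γ t) = t - s := by
    intro s t hst hle
    have hs := hsplit s
    have ht := hsplit t
    have h3 : ⌊s / ℓ⌋ ≤ ⌊t / ℓ⌋ := Int.floor_mono (div_le_div_of_nonneg_right hst hpos.le)
    have h4 : ⌊t / ℓ⌋ ≤ ⌊s / ℓ⌋ + 1 := by
      rw [← Int.floor_add_one]
      apply Int.floor_mono
      rw [div_add_one hpos.ne']
      exact div_le_div_of_nonneg_right (by linarith) hpos.le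
    rcases (show ⌊t / ℓ⌋ = ⌊s / ℓ⌋ ∨ ⌊t / ℓ⌋ = ⌊s / ℓ⌋ + 1 by omega) with h | h
    · show dist ((f ^ ⌊s / ℓ⌋) _) ((f ^ ⌊t / ℓ⌋) _) = _
      rw [h] at ht
      rw [h, IsometryEquiv.dist_eq, h1 _ (hfr s) _ (hfr t) (by linarith) (by linarith)]
      linarith
    · show dist ((f ^ ⌊s / ℓ⌋) _) ((f ^ ⌊t / ℓ⌋) _) = _
      rw [h] at ht
      push_cast at ht
      rw [h, zpow_add, zpow_one]
      show dist ((f ^ ⌊s / ℓ⌋) _) ((f ^ ⌊s / ℓ⌋) (f _)) = _
      have h5 : t - s = (ℓ - Int.fract (s / ℓ) * ℓ) + Int.fract (t / ℓ) * ℓ := by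
        nth_rewrite 1 [hs, ht]
        ring
      rw [IsometryEquiv.dist_eq]
      have h6 := h2 (ℓ - Int.fract (s / ℓ) * ℓ) (Int.fract (t / ℓ) * ℓ) (by linarith [(hfr s).2])
        (hfr t).1 (by linarith)
      rw [sub_sub_cancel] at h6
      rw [h6, h5]
  have hshift : ∀ t, γ (t + m * ℓ) = γ t := by
    intro t
    have h1 : (t + m * ℓ) / ℓ = t / ℓ + (m : ℕ) := by
      field_simp
    show (f ^ ⌊(t + m * ℓ) / ℓ⌋) (c (Int.fract ((t + m * ℓ) / ℓ) * ℓ)) = _
    rw [h1, Int.floor_add_natCast, Int.fract_add_natCast, zpow_add, zpow_natCast, hfm, mul_one]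
  refine ⟨γ, m * ℓ, ?_, le_rfl, hshift, ε, hε, fun s t hst => ?_⟩
  · have : (1 : ℝ) ≤ m := by exact_mod_cast hm
    nlinarith
  · rcases le_total s t with h | h
    · rw [abs_sub_comm, abs_of_nonneg (by linarith)] at hst ⊢
      exact hloc s t h hst
    · rw [dist_comm, abs_of_nonneg (by linarith)]
      rw [abs_of_nonneg (by linarith)] at hst
      exact hloc t s h hst

/-- a shortest path to a part of the fixed point set and its image form a local geodesic -/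
theorem refl_near {X : Type} [MetricSpace X] (hX : GeodSpace X) {r : ℝ} (hr : 0 < r)
    (hU : UniqGeod X r) (σ : X ≃ᵢ X) (hσ : ∀ x, σ (σ x) = x) (A : Set X)
    (hA' : IsClosed ({x | σ x = x} \ A)) (a b : X) (ha : a ∈ A)
    (hσa : σ a = a) (hmin : ∀ x ∈ A, dist a b ≤ dist x b)
    (c : ℝ → X) (hcb : ∀ s, 0 ≤ s → s ≤ dist a b → dist a (c s) = s ∧
      dist (c s) b = dist a b - s) :
    ∃ ε : ℝ, 0 < ε ∧ ∀ s, 0 ≤ s → s ≤ ε → s ≤ dist a b → dist (c s) (σ (c s)) = 2 * s := by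
  obtain ⟨ρ, hρ, hball⟩ := Metric.isOpen_iff.1 hA'.isOpen_compl a (fun h => h.2 ha)
  refine ⟨min (r / 4) (ρ / 4), by positivity, fun s hs0 hs hsd => ?_⟩
  obtain ⟨h1, h2⟩ := hcb s hs0 hsd
  have hsr : s ≤ r / 4 := hs.trans (min_le_left _ _)
  have hsρ : s ≤ ρ / 4 := hs.trans (min_le_right _ _)
  set x := c s with hx
  have h3 : dist a (σ x) = s := by
    rw [← hσa, σ.dist_eq, h1]
  have hle : dist x (σ x) ≤ 2 * s := by
    have := dist_triangle x a (σ x)
    rw [dist_comm x a] at this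
    linarith
  -- the midpoint
  obtain ⟨g, hg0, hg1, hgd⟩ := hX x (σ x)
  set M := g (1 / 2) with hM
  have hM1 : dist x M = dist x (σ x) / 2 := by
    rw [hM, ← hg0, hgd 0 ⟨le_rfl, zero_le_one⟩ (1 / 2) ⟨by norm_num, by norm_num⟩, hg0]
    norm_num
    ring
  have hM2 : dist M (σ x) = dist x (σ x) / 2 := by
    rw [hM]
    conv_lhs => rw [← hg1]
    rw [hgd (1 / 2) ⟨by norm_num, by norm_num⟩ 1 ⟨zero_le_one, le_rfl⟩]
    norm_num
    ring
  have hM3 : dist x (σ M) = dist x (σ x) / 2 := by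
    have : dist x (σ M) = dist (σ x) (σ (σ M)) := (σ.dist_eq _ _).symm
    rw [this, hσ, dist_comm, hM2]
  have hM4 : dist (σ M) (σ x) = dist x (σ x) / 2 := by
    rw [σ.dist_eq, dist_comm, hM1]
  have hfix : σ M = M := by
    refine (hU x (σ x) M (σ M) (by linarith) (by linarith) (by linarith) ?_).symm
    rw [hM1, hM3]
  have hMA : M ∈ A := by
    by_contra hn
    have h4 : M ∈ ({x | σ x = x} \ A) := ⟨hfix, hn⟩
    have h5 : M ∈ Metric.ball a ρ := by
      rw [Metric.mem_ball]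
      have h6 := dist_triangle M x a
      rw [dist_comm M x, dist_comm x a] at h6
      linarith
    exact hball h5 h4
  have h7 := hmin M hMA
  have h8 := dist_triangle M x b
  rw [dist_comm M x] at h8
  apply le_antisymm hle
  linarith

/-- two involutions, and parts of their fixed point sets -/
theorem pair {X : Type} [MetricSpace X] (hX : GeodSpace X) {r : ℝ} (hr : 0 < r)
    (hU : UniqGeod X r) (σ τ : X ≃ᵢ X) (hσ : ∀ x, σ (σ x) = x) (hτ : ∀ x, τ (τ x) = x) (m : ℕ)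
    (hm : 1 ≤ m) (hστ : (τ * σ) ^ m = 1) (A B : Set X) (hAσ : ∀ x ∈ A, σ x = x)
    (hBτ : ∀ x ∈ B, τ x = x) (hA' : IsClosed ({x | σ x = x} \ A))
    (hB' : IsClosed ({x | τ x = x} \ B)) (a b : X) (ha : a ∈ A) (hb : b ∈ B)
    (hmin : ∀ x ∈ A, ∀ y ∈ B, dist a b ≤ dist x y) (hab : a ≠ b) :
    ClosedGeod X (m * (2 * dist a b)) := by
  set δ := dist a b with hδ
  have hδ0 : 0 < δ := dist_pos.2 hab
  obtain ⟨g, hg0, hg1, hgd⟩ := hX a b
  set c : ℝ → X := fun s => g (s / δ) with hc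
  have hcd : ∀ s ∈ Icc (0 : ℝ) δ, ∀ t ∈ Icc (0 : ℝ) δ, dist (c s) (c t) = |s - t| := by
    intro s hs t ht
    have e1 : ∀ s ∈ Icc (0 : ℝ) δ, s / δ ∈ Icc (0 : ℝ) 1 := fun s hs =>
      ⟨div_nonneg hs.1 hδ0.le, by rw [div_le_one hδ0]; exact hs.2⟩
    simp only [hc]
    rw [hgd _ (e1 s hs) _ (e1 t ht), ← hδ, ← sub_div, abs_div, abs_of_pos hδ0]
    field_simp
  have hc0 : c 0 = a := by
    simp only [hc]
    rw [zero_div, hg0]
  have hc1 : c δ = b := by
    simp only [hc]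
    rw [div_self hδ0.ne', hg1]
  obtain ⟨ε₁, hε₁, h1⟩ := refl_near hX hr hU σ hσ A hA' a b ha (hAσ a ha)
    (fun x hx => hmin x hx b hb) c (fun s hs0 hs => by
      have e1 := hcd 0 ⟨le_rfl, hδ0.le⟩ s ⟨hs0, hs⟩
      have e2 := hcd s ⟨hs0, hs⟩ δ ⟨hδ0.le, le_rfl⟩
      rw [hc0, zero_sub, abs_neg, abs_of_nonneg hs0] at e1
      rw [hc1, abs_sub_comm, abs_of_nonneg (by linarith)] at e2
      exact ⟨e1, e2⟩)
  obtain ⟨ε₂, hε₂, h2⟩ := refl_near hX hr hU τ hτ B hB' b a hb (hBτ b hb)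
    (fun x hx => by
      rw [dist_comm b a, dist_comm x a]
      exact hmin a ha x hx) (fun s => c (δ - s)) (fun s hs0 hs => by
      rw [dist_comm b a, ← hδ] at hs ⊢
      have e1 := hcd δ ⟨hδ0.le, le_rfl⟩ (δ - s) ⟨by linarith, by linarith⟩
      have e2 := hcd (δ - s) ⟨by linarith, by linarith⟩ 0 ⟨le_rfl, hδ0.le⟩
      rw [hc1, sub_sub_cancel, abs_of_nonneg hs0] at e1
      rw [hc0, sub_zero, abs_of_nonneg (by linarith)] at e2
      exact ⟨e1, e2⟩)
  rw [dist_comm b a, ← hδ] at h2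
  -- sides of different lengths
  have h3 : ∀ (φ : X ≃ᵢ X) (u : ℝ → X) (ε : ℝ), ε ≤ δ →
      (∀ s, 0 ≤ s → s ≤ δ → ∀ t, 0 ≤ t → t ≤ δ → dist (u s) (u t) = |s - t|) →
      φ (u 0) = u 0 →
      (∀ s, 0 ≤ s → s ≤ ε → dist (u s) (φ (u s)) = 2 * s) →
      ∀ s t, 0 ≤ s → 0 ≤ t → s ≤ ε → t ≤ ε → dist (u s) (φ (u t)) = s + t := by
    intro φ u ε hεδ hu hφ hd s t hs ht hsε htε
    apply le_antisymm
    · have e1 := dist_triangle (u s) (u 0) (φ (u t))
      have e2 := hu s hs (hsε.trans hεδ) 0 le_rfl hδ0.le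
      have e3 := hu 0 le_rfl hδ0.le t ht (htε.trans hεδ)
      rw [sub_zero, abs_of_nonneg hs] at e2
      rw [zero_sub, abs_neg, abs_of_nonneg ht] at e3
      have e4 : dist (u 0) (φ (u t)) = t := by
        conv_lhs => rw [← hφ]
        rw [φ.dist_eq, e3]
      linarith
    · rcases le_total s t with h | h
      · have e1 := hd t ht htε
        have e2 := dist_triangle (u t) (u s) (φ (u t))
        have e3 := hu t ht (htε.trans hεδ) s hs (hsε.trans hεδ)
        rw [abs_of_nonneg (by linarith)] at e3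
        linarith
      · have e1 := hd s hs hsε
        have e2 := dist_triangle (u s) (φ (u t)) (φ (u s))
        have e3 := hu t ht (htε.trans hεδ) s hs (hsε.trans hεδ)
        rw [abs_sub_comm, abs_of_nonneg (by linarith)] at e3
        rw [φ.dist_eq, e3] at e2
        linarith
  set ε := min δ (min ε₁ ε₂) with hε
  have hε0 : 0 < ε := by positivity
  have hεδ : ε ≤ δ := min_le_left _ _
  have hε1 : ε ≤ ε₁ := (min_le_right _ _).trans (min_le_left _ _)
  have hε2 : ε ≤ ε₂ := (min_le_right _ _).trans (min_le_right _ _)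
  have h4 := h3 σ c ε hεδ (fun s hs0 hs t ht0 ht => hcd s ⟨hs0, hs⟩ t ⟨ht0, ht⟩)
    (by rw [hc0]; exact hAσ a ha) (fun s hs0 hs => h1 s hs0 (hs.trans hε1) (hs.trans hεδ))
  have h5 := h3 τ (fun s => c (δ - s)) ε hεδ (fun s hs0 hs t ht0 ht => by
      show dist (c (δ - s)) (c (δ - t)) = _
      rw [hcd _ ⟨by linarith, by linarith⟩ _ ⟨by linarith, by linarith⟩, sub_sub_sub_cancel_left,
        abs_sub_comm])
    (by show τ (c (δ - 0)) = c (δ - 0)
        rw [sub_zero, hc1]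
        exact hBτ b hb)
    (fun s hs0 hs => h2 s hs0 (hs.trans hε2) (hs.trans hεδ))
  refine pieces (τ * σ) m hm hστ (fun t => if t ≤ δ then σ (c (δ - t)) else c (t - δ)) (2 * δ) ε
    hε0 (by linarith) ?_ ?_
  · intro s hs t ht hst hle
    by_cases h6 : t ≤ δ
    · rw [if_pos (hst.trans h6), if_pos h6, σ.dist_eq,
        hcd _ ⟨by linarith, by linarith [hs.1]⟩ _ ⟨by linarith, by linarith [hs.1]⟩,
        sub_sub_sub_cancel_left, abs_of_nonneg (by linarith)]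
    · by_cases h7 : s ≤ δ
      · rw [if_pos h7, if_neg h6, dist_comm]
        push Not at h6
        rw [h4 (t - δ) (δ - s) (by linarith) (by linarith) (by linarith) (by linarith)]
        ring
      · rw [if_neg h7, if_neg h6]
        push Not at h6 h7
        rw [hcd _ ⟨by linarith, by linarith [ht.2]⟩ _ ⟨by linarith, by linarith [ht.2]⟩,
          sub_sub_sub_cancel_right, abs_sub_comm, abs_of_nonneg (by linarith)]
  · intro s t hs ht hst
    have h6 : t ≤ δ := by linarith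
    rw [if_pos h6]
    show dist (if 2 * δ - s ≤ δ then _ else _) (τ (σ (σ (c (δ - t))))) = _
    rw [hσ]
    have h7 := h5 s t hs ht (by linarith) (by linarith)
    by_cases h8 : 2 * δ - s ≤ δ
    · have hsδ : s = δ := by linarith
      have ht0 : t = 0 := by linarith
      rw [if_pos h8, hsδ, ht0]
      rw [hsδ, ht0] at h7
      rw [sub_self, hc0, sub_zero, hc1] at h7
      have e1 : δ - (2 * δ - δ) = 0 := by ring
      rw [e1, hc0, hAσ a ha, sub_zero, hc1]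
      exact h7
    · rw [if_neg h8]
      have e1 : 2 * δ - s - δ = δ - s := by ring
      rw [e1]
      exact h7

end Pool.Agent.Helper8.GR
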