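import Pool.Agent.Helper8.GR.Dih

/-!
# Pairs of isometric involutions: consequences
-/

set_option autoImplicit false

open Set Topology Filter

noncomputable section

namespace Pool.Agent.Helper8.GR

open Pool.Agent.Y489.GE

/-- an isometric involution as an isometric equivalence -/
def invo {X : Type} [MetricSpace X] (σ : X → X) (h : Isometry σ) (h2 : ∀ x, σ (σ x) = x) :
    X ≃ᵢ X where
  toFun := σ
  invFun := σ
  left_inv := h2
  right_inv := h2
  isometry_toFun := h

theorem pair_diam {X : Type} [MetricSpace X] [CompactSpace X] (hX : GeodSpace X) {r : ℝ}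
    (hr : 0 < r) (hU : UniqGeod X r) (σ τ : X ≃ᵢ X) (hσ : ∀ x, σ (σ x) = x)
    (hτ : ∀ x, τ (τ x) = x) (m : ℕ) (hm : 1 ≤ m) (hστ : (τ * σ) ^ m = 1) (A B : Set X)
    (hAc : IsClosed A) (hBc : IsClosed B) (hAn : A.Nonempty) (hBn : B.Nonempty)
    (hAB : Disjoint A B) (hAσ : ∀ x ∈ A, σ x = x)
    (hBτ : ∀ x ∈ B, τ x = x) (hA' : IsClosed ({x | σ x = x} \ A))
    (hB' : IsClosed ({x | τ x = x} \ B)) :
    ∃ a ∈ A, ∃ b ∈ B, (∀ x ∈ A, ∀ y ∈ B, dist a b ≤ dist x y) ∧
      ClosedGeod X (2 * m * dist a b) := by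
  have hc : ContinuousOn (fun z : X × X => dist z.1 z.2) (A ×ˢ B) := by fun_prop
  obtain ⟨z, hz, hmin⟩ := (hAc.isCompact.prod hBc.isCompact).exists_isMinOn (hAn.prod hBn) hc
  have hmin' : ∀ x ∈ A, ∀ y ∈ B, dist z.1 z.2 ≤ dist x y := fun x hx y hy =>
    hmin (show ((x, y) : X × X) ∈ A ×ˢ B from ⟨hx, hy⟩)
  have hne : z.1 ≠ z.2 := fun h => Set.disjoint_left.1 hAB hz.1 (h ▸ hz.2)
  have h1 := pair hX hr hU σ τ hσ hτ m hm hστ A B hAσ hBτ hA' hB' z.1 z.2 hz.1 hz.2 hmin' hne
  refine ⟨z.1, hz.1, z.2, hz.2, hmin', ?_⟩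
  have e : (m : ℝ) * (2 * dist z.1 z.2) = 2 * m * dist z.1 z.2 := by ring
  rwa [e] at h1

/-- one involution with two parts of its fixed point set -/
theorem split {X : Type} [MetricSpace X] [CompactSpace X] (hX : GeodSpace X) {r : ℝ}
    (hr : 0 < r) (hU : UniqGeod X r) (σ : X ≃ᵢ X) (hσ : ∀ x, σ (σ x) = x) (A B : Set X)
    (hAc : IsClosed A) (hBc : IsClosed B) (hAn : A.Nonempty) (hBn : B.Nonempty)
    (hAB : Disjoint A B) (hF : {x | σ x = x} = A ∪ B) :
    ClosedGeod X (2 * Metric.diam (univ : Set X)) := by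
  have h1 : (σ * σ) ^ 1 = 1 := by
    rw [pow_one]
    ext x
    exact hσ x
  have hAF : ∀ x ∈ A, σ x = x := fun x hx => by
    have : x ∈ {x | σ x = x} := by rw [hF]; exact Or.inl hx
    exact this
  have hBF : ∀ x ∈ B, σ x = x := fun x hx => by
    have : x ∈ {x | σ x = x} := by rw [hF]; exact Or.inr hx
    exact this
  obtain ⟨a, ha, b, hb, -, h2⟩ := pair_diam hX hr hU σ σ hσ hσ 1 le_rfl h1 A B hAc hBc hAn hBn hAB
    hAF hBF (by rw [hF, union_sdiff_left, hAB.symm.sdiff_eq_left]; exact hBc)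
    (by rw [hF, union_sdiff_right, hAB.sdiff_eq_left]; exact hAc)
  refine ClosedGeod.mono h2 ?_
  rw [Nat.cast_one, mul_one]
  exact mul_le_mul_of_nonneg_left (Metric.dist_le_diam_of_mem isCompact_univ.isBounded
    (mem_univ _) (mem_univ _)) (by norm_num)

/-- the fixed point set is empty or not connected -/
theorem disconnected {X : Type} [MetricSpace X] [CompactSpace X] [Nonempty X] (hX : GeodSpace X)
    {r : ℝ} (hr : 0 < r) (hU : UniqGeod X r) (σ : X ≃ᵢ X) (hσ : ∀ x, σ (σ x) = x)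
    (hF : ¬ IsConnected {x | σ x = x}) : ClosedGeod X (2 * Metric.diam (univ : Set X)) := by
  have hFc : IsClosed {x | σ x = x} := isClosed_eq σ.continuous continuous_id
  by_cases hne : ({x | σ x = x} : Set X).Nonempty
  · have h1 : ¬ IsPreconnected {x | σ x = x} := fun h => hF ⟨hne, h⟩
    rw [isPreconnected_closed_iff] at h1
    push Not at h1
    obtain ⟨t, t', ht, ht', hsub, hn, hn', hemp⟩ := h1
    refine split hX hr hU σ hσ ({x | σ x = x} ∩ t) ({x | σ x = x} ∩ t') (hFc.inter ht)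
      (hFc.inter ht') hn hn' ?_ ?_
    · rw [Set.disjoint_left]
      intro x hx hx'
      have : x ∈ ({x | σ x = x} ∩ (t ∩ t')) := ⟨hx.1, hx.2, hx'.2⟩
      rw [hemp] at this
      exact this
    · rw [← inter_union_distrib_left]
      exact (inter_eq_left.2 hsub).symm
  · have h2 := free_closed hX σ 2 (by norm_num) (by
      rw [pow_two]
      ext x
      exact hσ x) (fun x hx => hne ⟨x, hx⟩)
    exact_mod_cast h2

/-- two involutions without common fixed points -/
theorem dihedral {X : Type} [MetricSpace X] [CompactSpace X] [Nonempty X] (hX : GeodSpace X)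
    {r : ℝ} (hr : 0 < r) (hU : UniqGeod X r) (σ τ : X ≃ᵢ X) (hσ : ∀ x, σ (σ x) = x)
    (hτ : ∀ x, τ (τ x) = x) (m : ℕ) (hm : 1 ≤ m) (hστ : (τ * σ) ^ m = 1)
    (hno : ∀ x, σ x = x → τ x ≠ x) : ClosedGeod X (2 * m * Metric.diam (univ : Set X)) := by
  have hd : 0 ≤ Metric.diam (univ : Set X) := Metric.diam_nonneg
  have hm' : (1 : ℝ) ≤ m := by exact_mod_cast hm
  have hσc : IsClosed {x | σ x = x} := isClosed_eq σ.continuous continuous_id
  have hτc : IsClosed {x | τ x = x} := isClosed_eq τ.continuous continuous_id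
  have hfree : ∀ f : X ≃ᵢ X, (∀ x, f (f x) = x) → (¬ ({x | f x = x} : Set X).Nonempty) →
      ClosedGeod X (2 * m * Metric.diam (univ : Set X)) := by
    intro f hf hne
    have h2 := free_closed hX f 2 (by norm_num) (by
      rw [pow_two]
      ext x
      exact hf x) (fun x hx => hne ⟨x, hx⟩)
    refine ClosedGeod.mono h2 (mul_le_mul_of_nonneg_right ?_ hd)
    push_cast
    linarith
  by_cases h1 : ({x | σ x = x} : Set X).Nonempty
  · by_cases h2 : ({x | τ x = x} : Set X).Nonempty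
    · obtain ⟨a, ha, b, hb, -, h3⟩ := pair_diam hX hr hU σ τ hσ hτ m hm hστ {x | σ x = x}
        {x | τ x = x} hσc hτc h1 h2 (Set.disjoint_left.2 fun x hx hx' => hno x hx hx')
        (fun x hx => hx) (fun x hx => hx) (by rw [sdiff_self]; exact isClosed_empty)
        (by rw [sdiff_self]; exact isClosed_empty)
      refine ClosedGeod.mono h3 ?_
      exact mul_le_mul_of_nonneg_left (Metric.dist_le_diam_of_mem isCompact_univ.isBounded
        (mem_univ _) (mem_univ _)) (by positivity)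
    · exact hfree τ hτ h2
  · exact hfree σ hσ h1

/-- a torus of half the dimension with two fixed points -/
theorem torus_two {X : Type} [MetricSpace X] [CompactSpace X] (hX : GeodSpace X)
    {r : ℝ} (hr : 0 < r) (hU : UniqGeod X r) (n : ℕ) [MulAction (Fin n → Circle) X]
    (hiso : ∀ (t : Fin n → Circle) (x y : X), dist (t • x) (t • y) = dist x y) (p p' : X)
    (hpp : p ≠ p') (hp : ∀ t : Fin n → Circle, t • p = p) (hp' : ∀ t : Fin n → Circle, t • p' = p')
    (U : Set X) (hUp : U ∈ 𝓝 p) (φ : X → Fin n → ℂ) (hφ : InjOn φ U)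
    (hφt : ∀ x ∈ U, ∀ t : Fin n → Circle, t • x ∈ U → ∀ i, φ (t • x) i = t i * φ x i) :
    ClosedGeod X (2 * Metric.diam (univ : Set X)) := by
  have hz : (fun _ => -1 : Fin n → Circle) * (fun _ => -1 : Fin n → Circle) = 1 := by
    funext i
    show (-1 : Circle) * -1 = 1
    rw [neg_mul_neg, one_mul]
  set σ : X ≃ᵢ X := invo (fun x => (fun _ => -1 : Fin n → Circle) • x)
    (Isometry.of_dist_eq fun x y => hiso _ x y) (fun x => by rw [smul_smul, hz, one_smul])
    with hσdef
  have hσv : ∀ x, σ x = (fun _ => -1 : Fin n → Circle) • x := fun _ => rfl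
  have hσ : ∀ x, σ (σ x) = x := fun x => by rw [hσv, hσv, smul_smul, hz, one_smul]
  have hFc : IsClosed {x | σ x = x} := isClosed_eq σ.continuous continuous_id
  have hzero : ∀ x ∈ U, σ x = x → φ x = 0 := by
    intro x hx hxσ
    funext i
    have h1 := hφt x hx (fun _ => -1) (by rw [← hσv, hxσ]; exact hx) i
    rw [← hσv, hxσ] at h1
    have h2 : (((-1 : Circle)) : ℂ) = -1 := by simp
    rw [h2] at h1
    show φ x i = 0
    linear_combination (1 / 2 : ℂ) * h1
  have hpU : p ∈ U := mem_of_mem_nhds hUp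
  have hσp : σ p = p := hp _
  have hσp' : σ p' = p' := hp' _
  have hiso' : ∀ x ∈ U, σ x = x → x = p := fun x hx hxσ =>
    hφ hx hpU ((hzero x hx hxσ).trans (hzero p hpU hσp).symm)
  obtain ⟨V, hVU, hVo, hpV⟩ := mem_nhds_iff.1 hUp
  refine split hX hr hU σ hσ {p} ({x | σ x = x} ∩ Vᶜ) isClosed_singleton
    (hFc.inter hVo.isClosed_compl) (singleton_nonempty p) ⟨p', hσp', ?_⟩ ?_ ?_
  · intro h
    exact hpp (hiso' p' (hVU h) hσp').symm
  · rw [Set.disjoint_left]
    rintro x hx ⟨-, h2⟩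
    rw [mem_singleton_iff] at hx
    rw [hx] at h2
    exact h2 hpV
  · ext x
    constructor
    · intro hx
      by_cases h : x ∈ V
      · exact Or.inl (hiso' x (hVU h) hx)
      · exact Or.inr ⟨hx, h⟩
    · rintro (hx | hx)
      · rw [mem_singleton_iff] at hx
        rw [hx]
        exact hσp
      · exact hx.1

end Pool.Agent.Helper8.GR
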