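import Pool.Agent.Y489.GE.Stm

/-!
# Isometries of finite order without fixed points
-/

set_option autoImplicit false

open Set Topology Filter

noncomputable section

namespace Pool.Agent.Helper8.GR

open Pool.Agent.Y489.GE

/-- an isometry of finite order whose displacement has a positive minimum -/
theorem free_at {X : Type} [MetricSpace X] (hX : GeodSpace X) (f : X ≃ᵢ X) (m : ℕ)
    (hm : 1 ≤ m) (hfm : f ^ m = 1) (x₀ : X) (hmin : ∀ y, dist x₀ (f x₀) ≤ dist y (f y))
    (hpos : 0 < dist x₀ (f x₀)) : ClosedGeod X (m * dist x₀ (f x₀)) := by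
  set δ := dist x₀ (f x₀) with hδ
  obtain ⟨c, hc0, hc1, hcd⟩ := hX x₀ (f x₀)
  rw [← hδ] at hcd
  have key : ∀ v ∈ Icc (0 : ℝ) 1, ∀ w ∈ Icc (0 : ℝ) 1, w ≤ v →
      dist (c v) (f (c w)) = (1 - v + w) * δ := by
    intro v hv w hw hwv
    have h1 : dist (c v) (c 1) = (1 - v) * δ := by
      rw [hcd v hv 1 ⟨zero_le_one, le_rfl⟩, abs_sub_comm, abs_of_nonneg (by linarith [hv.2])]
    have h2 : dist (c 1) (f (c w)) = w * δ := by
      rw [hc1, f.dist_eq, ← hc0, hcd 0 ⟨le_rfl, zero_le_one⟩ w hw, zero_sub, abs_neg,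
        abs_of_nonneg hw.1]
    have h3 : dist (f (c w)) (f (c v)) = (v - w) * δ := by
      rw [f.dist_eq, hcd w hw v hv, abs_sub_comm, abs_of_nonneg (by linarith)]
    have h4 := hmin (c v)
    have h5 := dist_triangle (c v) (f (c w)) (f (c v))
    have h6 := dist_triangle (c v) (c 1) (f (c w))
    apply le_antisymm
    · nlinarith
    · nlinarith
  set γ : ℝ → X := fun t => (f ^ ⌊t / δ⌋) (c (Int.fract (t / δ))) with hγ
  have hfr : ∀ t : ℝ, Int.fract (t / δ) ∈ Icc (0 : ℝ) 1 := fun t =>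
    ⟨Int.fract_nonneg _, (Int.fract_lt_one _).le⟩
  have hsplit : ∀ t : ℝ, t = (⌊t / δ⌋ + Int.fract (t / δ)) * δ := by
    intro t
    rw [Int.floor_add_fract]
    field_simp
  have hloc : ∀ s t : ℝ, s ≤ t → t - s ≤ δ → dist (γ s) (γ t) = t - s := by
    intro s t hst hle
    have hs := hsplit s
    have ht := hsplit t
    have hfs := hfr s
    have hft := hfr t
    have hfs' := Int.fract_lt_one (s / δ)
    have hft' := Int.fract_lt_one (t / δ)
    have h1 : ⌊s / δ⌋ ≤ ⌊t / δ⌋ := Int.floor_mono (div_le_div_of_nonneg_right hst hpos.le)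
    have h2 : ⌊t / δ⌋ ≤ ⌊s / δ⌋ + 1 := by
      rw [← Int.floor_add_one]
      apply Int.floor_mono
      rw [div_add_one hpos.ne']
      exact div_le_div_of_nonneg_right (by linarith) hpos.le
    rcases (show ⌊t / δ⌋ = ⌊s / δ⌋ ∨ ⌊t / δ⌋ = ⌊s / δ⌋ + 1 by omega) with h | h
    · show dist ((f ^ ⌊s / δ⌋) _) ((f ^ ⌊t / δ⌋) _) = _
      rw [h, IsometryEquiv.dist_eq, hcd _ (hfr s) _ (hfr t)]
      have h3 : (t - s) = (Int.fract (t / δ) - Int.fract (s / δ)) * δ := by
        rw [h] at ht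
        nth_rewrite 1 [hs, ht]
        ring
      have h4 : 0 ≤ Int.fract (t / δ) - Int.fract (s / δ) := by
        by_contra hn
        nlinarith
      rw [abs_sub_comm, abs_of_nonneg h4, ← h3]
    · show dist ((f ^ ⌊s / δ⌋) _) ((f ^ ⌊t / δ⌋) _) = _
      have h3 : (t - s) = (1 - Int.fract (s / δ) + Int.fract (t / δ)) * δ := by
        rw [h] at ht
        push_cast at ht
        nth_rewrite 1 [hs, ht]
        ring
      have h4 : Int.fract (t / δ) ≤ Int.fract (s / δ) := by
        by_contra hn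
        nlinarith
      rw [h, zpow_add, zpow_one]
      show dist ((f ^ ⌊s / δ⌋) _) ((f ^ ⌊s / δ⌋) (f _)) = _
      rw [IsometryEquiv.dist_eq, key _ (hfr s) _ (hfr t) h4, h3]
  have hshift : ∀ t, γ (t + m * δ) = γ t := by
    intro t
    have h1 : (t + m * δ) / δ = t / δ + (m : ℕ) := by
      field_simp
    show (f ^ ⌊(t + m * δ) / δ⌋) (c (Int.fract ((t + m * δ) / δ))) = _
    rw [h1, Int.floor_add_natCast, Int.fract_add_natCast, zpow_add, zpow_natCast, hfm, mul_one]
  refine ⟨γ, m * δ, ?_, le_rfl, hshift, δ, hpos, fun s t hst => ?_⟩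
  · have : (1 : ℝ) ≤ m := by exact_mod_cast hm
    nlinarith
  · rcases le_total s t with h | h
    · rw [abs_sub_comm, abs_of_nonneg (by linarith)] at hst ⊢
      exact hloc s t h hst
    · rw [dist_comm, abs_of_nonneg (by linarith)]
      rw [abs_of_nonneg (by linarith)] at hst
      exact hloc t s h hst

theorem ClosedGeod.mono {X : Type} [MetricSpace X] {L L' : ℝ} (h : ClosedGeod X L)
    (hL : L ≤ L') : ClosedGeod X L' := by
  obtain ⟨γ, ℓ, h1, h2, h3⟩ := h
  exact ⟨γ, ℓ, h1, h2.trans hL, h3⟩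

/-- an isometry of order `m` without fixed points -/
theorem free_closed {X : Type} [MetricSpace X] [CompactSpace X] [Nonempty X] (hX : GeodSpace X)
    (f : X ≃ᵢ X) (m : ℕ) (hm : 1 ≤ m) (hfm : f ^ m = 1) (hfree : ∀ x, f x ≠ x) :
    ClosedGeod X (m * Metric.diam (univ : Set X)) := by
  have hc : Continuous fun x => dist x (f x) := continuous_id.dist f.continuous
  obtain ⟨x₀, -, hx₀⟩ := isCompact_univ.exists_isMinOn univ_nonempty hc.continuousOn
  have hbd : Bornology.IsBounded (univ : Set X) := isCompact_univ.isBounded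
  have h1 := free_at hX f m hm hfm x₀ (fun y => hx₀ (mem_univ y))
    (dist_pos.2 fun h => hfree x₀ h.symm)
  refine ClosedGeod.mono h1 ?_
  exact mul_le_mul_of_nonneg_left (Metric.dist_le_diam_of_mem hbd (mem_univ _) (mem_univ _))
    (Nat.cast_nonneg m)

end Pool.Agent.Helper8.GR
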