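import Pool.Agent.Helper8.GR.Dih2

/-!
# Complex projective space with one symmetry
-/

set_option autoImplicit false

open Set Topology Filter

noncomputable section

namespace Pool.Agent.Helper8.GR

open Pool.Agent.Y489.GE

/-- the unit sphere of `ℂ^(n+1)` -/
abbrev CP1 (n : ℕ) : Type := {v : Fin (n + 1) → ℂ // ∑ i, ‖v i‖ ^ 2 = 1}

/-- the sign change of the first coordinate -/
def neg0 {n : ℕ} (v : CP1 n) : CP1 n :=
  ⟨fun i => if i = 0 then -v.1 i else v.1 i, by
    refine Eq.trans (Finset.sum_congr rfl fun i _ => ?_) v.2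
    dsimp only
    split_ifs
    · rw [norm_neg]
    · rfl⟩

theorem neg0_neg0 {n : ℕ} (v : CP1 n) : neg0 (neg0 v) = v := by
  apply Subtype.ext
  funext i
  show (if i = 0 then -(if i = 0 then -v.1 i else v.1 i) else (if i = 0 then -v.1 i else v.1 i)) = _
  split_ifs
  · rw [neg_neg]
  · rfl

theorem proj {X : Type} [MetricSpace X] [CompactSpace X] (hX : GeodSpace X)
    {r : ℝ} (hr : 0 < r) (hU : UniqGeod X r) (n : ℕ) (hn : 1 ≤ n) (π : CP1 n → X)
    (hπc : Continuous π) (hπs : Function.Surjective π)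
    (hπ : ∀ v w, π v = π w ↔ ∃ u : Circle, ∀ i, w.1 i = u * v.1 i)
    (hinv : ∀ v w, dist (π (neg0 v)) (π (neg0 w)) = dist (π v) (π w)) :
    ClosedGeod X (2 * Metric.diam (univ : Set X)) := by
  have hcompat : ∀ v w, π v = π w → π (neg0 v) = π (neg0 w) := by
    intro v w h
    obtain ⟨u, hu⟩ := (hπ v w).1 h
    refine (hπ _ _).2 ⟨u, fun i => ?_⟩
    show (if i = 0 then -w.1 i else w.1 i) = u * (if i = 0 then -v.1 i else v.1 i)
    split_ifs
    · rw [hu i, mul_neg]
    · exact hu i
  set s := Function.surjInv hπs with hs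
  have hs' : ∀ x, π (s x) = x := Function.surjInv_eq hπs
  have hv : ∀ v, π (neg0 (s (π v))) = π (neg0 v) := fun v => hcompat _ _ (hs' _)
  have hσ0 : ∀ x, π (neg0 (s (π (neg0 (s x))))) = x := by
    intro x
    rw [hv, neg0_neg0, hs']
  set σ : X ≃ᵢ X := invo (fun x => π (neg0 (s x))) (Isometry.of_dist_eq fun x y => by
    rw [hinv, hs', hs']) hσ0 with hσdef
  have hσv : ∀ v, σ (π v) = π (neg0 v) := fun v => hv v
  have hσ : ∀ x, σ (σ x) = x := hσ0
  have hclosed : ∀ S : Set (CP1 n), IsClosed S → IsClosed (π '' S) := by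
    intro S hS
    have : CompactSpace (CP1 n) := by
      apply isCompact_iff_compactSpace.1
      change IsCompact {v : Fin (n + 1) → ℂ | ∑ i, ‖v i‖ ^ 2 = 1}
      refine Metric.isCompact_of_isClosed_isBounded ?_ ?_
      · exact isClosed_eq (by fun_prop) continuous_const
      · rw [isBounded_iff_forall_norm_le]
        refine ⟨1, fun v hv => ?_⟩
        rw [pi_norm_le_iff_of_nonneg zero_le_one]
        intro i
        have h1 : ‖v i‖ ^ 2 ≤ 1 := by
          have h2 : ∑ i, ‖v i‖ ^ 2 = 1 := hv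
          rw [← h2]
          exact Finset.single_le_sum (f := fun i => ‖v i‖ ^ 2) (fun j _ => sq_nonneg _)
            (Finset.mem_univ i)
        have h3 := norm_nonneg (v i)
        nlinarith
    exact (hS.isCompact.image hπc).isClosed
  have hc : ∀ i : Fin (n + 1), Continuous fun v : CP1 n => v.1 i := fun i =>
    (continuous_apply i).comp continuous_subtype_val
  have hsum : ∀ j : Fin (n + 1), ∑ l, ‖(Pi.single j (1 : ℂ) : Fin (n + 1) → ℂ) l‖ ^ 2 = 1 := by
    intro j
    rw [Finset.sum_eq_single j]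
    · rw [Pi.single_eq_same, norm_one, one_pow]
    · intro l _ hl
      rw [Pi.single_eq_of_ne hl, norm_zero]
      norm_num
    · intro h
      exact (h (Finset.mem_univ _)).elim
  have h10 : (⟨1, by omega⟩ : Fin (n + 1)) ≠ 0 := by
    intro h
    have := congrArg Fin.val h
    simp at this
  refine split hX hr hU σ hσ (π '' {v | ∀ i, i ≠ 0 → v.1 i = 0}) (π '' {v | v.1 0 = 0})
    (hclosed _ ?_) (hclosed _ ?_) ?_ ?_ ?_ ?_
  · simp only [ofPred_forall]
    exact isClosed_iInter fun i => isClosed_iInter fun _ => isClosed_eq (hc i) continuous_const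
  · exact isClosed_eq (hc 0) continuous_const
  · exact ⟨_, ⟨Pi.single 0 1, hsum 0⟩, fun i hi => Pi.single_eq_of_ne hi _, rfl⟩
  · refine ⟨_, ⟨Pi.single ⟨1, by omega⟩ 1, hsum _⟩, ?_, rfl⟩
    show (Pi.single (⟨1, by omega⟩ : Fin (n + 1)) (1 : ℂ) : Fin (n + 1) → ℂ) 0 = 0
    exact Pi.single_eq_of_ne h10.symm 1
  · rw [Set.disjoint_left]
    rintro x ⟨v, hv1, rfl⟩ ⟨w, hw1, hw2⟩
    obtain ⟨u, hu⟩ := (hπ w v).1 hw2
    have h1 : ∀ i, v.1 i = 0 := by
      intro i
      by_cases hi : i = 0
      · rw [hi, hu 0]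
        have : w.1 0 = 0 := hw1
        rw [this, mul_zero]
      · exact hv1 i hi
    have h2 := v.2
    simp [h1] at h2
  · ext x
    constructor
    · intro hx
      obtain ⟨v, rfl⟩ := hπs x
      have hx' : π (neg0 v) = π v := (hσv v).symm.trans hx
      obtain ⟨u, hu⟩ := (hπ _ _).1 hx'
      by_cases h0 : v.1 0 = 0
      · exact Or.inr ⟨v, h0, rfl⟩
      · left
        refine ⟨v, fun i hi => ?_, rfl⟩
        have h1 : v.1 0 = u * -v.1 0 := hu 0
        have h2 : (u : ℂ) = -1 := by
          have h3 : ((u : ℂ) + 1) * v.1 0 = 0 := by linear_combination h1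
          rcases mul_eq_zero.1 h3 with h4 | h4
          · linear_combination h4
          · exact (h0 h4).elim
        have h3 : v.1 i = u * (neg0 v).1 i := hu i
        have h4 : (neg0 v).1 i = v.1 i := by
          show (if i = 0 then -v.1 i else v.1 i) = _
          rw [if_neg hi]
        rw [h4, h2] at h3
        linear_combination (1 / 2 : ℂ) * h3
    · rintro (⟨v, hv1, rfl⟩ | ⟨v, hv1, rfl⟩)
      · show σ (π v) = π v
        rw [hσv]
        refine (hπ _ _).2 ⟨-1, fun i => ?_⟩
        have h2 : (((-1 : Circle)) : ℂ) = -1 := by simp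
        show v.1 i = ((-1 : Circle) : ℂ) * (if i = 0 then -v.1 i else v.1 i)
        rw [h2]
        split_ifs with hi
        · ring
        · rw [hv1 i hi, mul_zero]
      · show σ (π v) = π v
        rw [hσv]
        congr 1
        apply Subtype.ext
        funext i
        show (if i = 0 then -v.1 i else v.1 i) = v.1 i
        split_ifs with hi
        · have : v.1 0 = 0 := hv1
          rw [hi, this, neg_zero]
        · rfl

end Pool.Agent.Helper8.GR
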