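import Pool.Agent.Helper8.GR.Core
import Pool.Agent.N489.RW.NCP

/-!
# Relative form: spheres
-/

set_option autoImplicit false

open Set Topology Filter

noncomputable section

namespace Pool.Agent.Helper8.GR

open Pool.Agent.Y489.GE Pool.Agent.R203.IF Pool.Agent.N489.RW

/-- the points of the cube as vectors with coordinates between `-1` and `1` -/
def wv {k : ℕ} (κ : Fin (k + 1) → unitInterval) : Eu k := WithLp.toLp 2 fun j => 2 * (κ j : ℝ) - 1

theorem wv_cont {k : ℕ} : Continuous (wv (k := k)) := by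
  unfold wv
  refine (PiLp.continuous_toLp 2 _).comp ?_
  fun_prop

/-- the radial retraction to the unit ball -/
def uv {k : ℕ} (κ : Fin (k + 1) → unitInterval) : Eu k := (max 1 ‖wv κ‖)⁻¹ • wv κ

theorem uv_cont {k : ℕ} : Continuous (uv (k := k)) := by
  unfold uv
  refine Continuous.smul (Continuous.inv₀ (continuous_const.max wv_cont.norm) fun κ => ?_) wv_cont
  have : (1 : ℝ) ≤ max 1 ‖wv κ‖ := le_max_left _ _
  linarith

theorem uv_le {k : ℕ} (κ : Fin (k + 1) → unitInterval) : ‖uv κ‖ ≤ 1 := by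
  have h1 : (1 : ℝ) ≤ max 1 ‖wv κ‖ := le_max_left _ _
  unfold uv
  rw [norm_smul, norm_inv, Real.norm_eq_abs, abs_of_pos (by linarith), inv_mul_le_iff₀ (by linarith),
    mul_one]
  exact le_max_right _ _

theorem uv_one {k : ℕ} (κ : Fin (k + 1) → unitInterval) (h : 1 ≤ ‖wv κ‖) : ‖uv κ‖ = 1 := by
  unfold uv
  rw [max_eq_right h, norm_smul, norm_inv, norm_norm, inv_mul_cancel₀ (by linarith)]

theorem wv_bdry {k : ℕ} (κ : Fin (k + 1) → unitInterval) (h : κ ∈ Cube.boundary (Fin (k + 1))) :
    1 ≤ ‖wv κ‖ := by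
  obtain ⟨i, hi⟩ := h
  have h1 : ‖wv κ i‖ ≤ ‖wv κ‖ := PiLp.norm_apply_le (wv κ) i
  refine le_trans ?_ h1
  show 1 ≤ ‖2 * (κ i : ℝ) - 1‖
  rcases hi with hi | hi
  · rw [hi]
    norm_num
  · rw [hi]
    norm_num

/-- the unit sphere of the sum of Euclidean space and a normed space -/
abbrev SW (k : ℕ) (W : Type) [NormedAddCommGroup W] : Type :=
  {v : Eu k × W // ‖v.1‖ ^ 2 + ‖v.2‖ ^ 2 = 1}

theorem sphW (k : ℕ) (W : Type) [NormedAddCommGroup W] [NormedSpace ℝ W] (w0 : W)
    (hw0 : ‖w0‖ = 1) (X : Type) [MetricSpace X] [CompactSpace X] (e : X ≃ₜ SW k W) (σ : X → X)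
    (hσe : ∀ x, (e (σ x)).1 = ((e x).1.1, -(e x).1.2)) (hσ : Isometry σ) (p : X) (hp : σ p = p)
    (r lam : ℝ) (hr : 0 < r) (hX : GeodSpace X) (hU : UniqGeod X r) (hP : PushS X σ p lam) :
    ClosedGeod X (4 * (∑ i ∈ Finset.range (k + 1), lam ^ i) * Metric.diam (univ : Set X)) := by
  by_contra hno
  have hσ2 : ∀ x, σ (σ x) = x := by
    intro x
    apply e.injective
    apply Subtype.ext
    rw [hσe, hσe]
    simp
  have hmem : ∀ κ : Fin (k + 1) → unitInterval,
      ‖((uv κ, Real.sqrt (1 - ‖uv κ‖ ^ 2) • w0) : Eu k × W).1‖ ^ 2 +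
        ‖((uv κ, Real.sqrt (1 - ‖uv κ‖ ^ 2) • w0) : Eu k × W).2‖ ^ 2 = 1 := by
    intro κ
    have h1 := uv_le κ
    have h2 : 0 ≤ 1 - ‖uv κ‖ ^ 2 := by
      have := norm_nonneg (uv κ)
      nlinarith
    dsimp only
    rw [norm_smul, hw0, mul_one, Real.norm_eq_abs, sq_abs, Real.sq_sqrt h2]
    ring
  set f : (Fin (k + 1) → unitInterval) → X := fun κ =>
    e.symm ⟨(uv κ, Real.sqrt (1 - ‖uv κ‖ ^ 2) • w0), hmem κ⟩ with hf
  have hfc : Continuous f := by
    refine e.symm.continuous.comp (Continuous.subtype_mk ?_ _)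
    refine uv_cont.prodMk (Continuous.smul ?_ continuous_const)
    exact (continuous_const.sub (uv_cont.norm.pow 2)).sqrt
  have hfe : ∀ κ, (e (f κ)).1 = (uv κ, Real.sqrt (1 - ‖uv κ‖ ^ 2) • w0) := by
    intro κ
    simp only [hf, Homeomorph.apply_symm_apply]
  have hfF : ∀ κ ∈ Cube.boundary (Fin (k + 1)), σ (f κ) = f κ := by
    intro κ hκ
    have h1 := uv_one κ (wv_bdry κ hκ)
    apply e.injective
    apply Subtype.ext
    rw [hσe, hfe, h1]
    simp
  obtain ⟨H, hH1, hH2, hH3, hH4⟩ := coreR X σ hσ hσ2 p hp r lam hr hX hU hP (k + 1) (by omega) f hfc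
    hfF hno
  -- the points of `F`
  have hF : ∀ x, σ x = x → ‖(e x).1.1‖ = 1 := by
    intro x hx
    have h1 := hσe x
    rw [hx] at h1
    have h2 : (e x).1.2 = -(e x).1.2 := congrArg Prod.snd h1
    have h3 : (e x).1.2 = 0 := by
      have h4 : (2 : ℝ) • (e x).1.2 = 0 := by
        rw [two_smul]
        nth_rewrite 2 [h2]
        exact add_neg_cancel _
      exact (smul_eq_zero.1 h4).resolve_left two_ne_zero
    have h5 := (e x).2
    rw [h3, norm_zero] at h5
    have h6 := norm_nonneg (e x).1.1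
    nlinarith
  -- the homotopy
  set M : Eu k → ℝ := fun s => ‖fun j => s j‖ with hM
  have hMc : Continuous M := by
    simp only [hM]
    fun_prop
  have hMle : ∀ (s : Eu k) (j : Fin (k + 1)), |s j| ≤ M s := by
    intro s j
    have := norm_le_pi_norm (fun j => s j) j
    rwa [Real.norm_eq_abs] at this
  have hM1 : ∀ s : Eu k, M s ≤ ‖s‖ := by
    intro s
    simp only [hM]
    rw [pi_norm_le_iff_of_nonneg (norm_nonneg _)]
    intro j
    exact PiLp.norm_apply_le s j
  have hMpos : ∀ s ∈ Metric.sphere (0 : Eu k) 1, 0 < M s := by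
    intro s hs
    rw [mem_sphere_zero_iff_norm] at hs
    by_contra hn
    have h0 : M s = 0 := le_antisymm (not_lt.1 hn) (norm_nonneg _)
    have h1 : s = 0 := by
      ext j
      have := hMle s j
      rw [h0] at this
      exact abs_nonpos_iff.1 this
    rw [h1, norm_zero] at hs
    exact zero_ne_one hs
  set κ : Eu k → ℝ → (Fin (k + 1) → unitInterval) := fun s t j =>
    projIcc (0 : ℝ) 1 zero_le_one (1 / 2 + t * s j / (2 * M s)) with hκ
  have hκv : ∀ s ∈ Metric.sphere (0 : Eu k) 1, ∀ t ∈ Icc (0 : ℝ) 1, ∀ j,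
      ((κ s t j : unitInterval) : ℝ) = 1 / 2 + t * s j / (2 * M s) := by
    intro s hs t ht j
    have h1 := abs_le.1 (hMle s j)
    have h0 := hMpos s hs
    have h2 : |t * s j| ≤ M s := by
      rw [abs_mul, abs_of_nonneg ht.1]
      have := hMle s j
      have := abs_nonneg (s j)
      nlinarith [ht.1, ht.2]
    have h3 := abs_le.1 h2
    have h4 : 1 / 2 + t * s j / (2 * M s) ∈ Icc (0 : ℝ) 1 := by
      constructor
      · have : -(1 / 2) ≤ t * s j / (2 * M s) := by
          rw [le_div_iff₀ (by positivity)]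
          linarith
        linarith
      · have : t * s j / (2 * M s) ≤ 1 / 2 := by
          rw [div_le_iff₀ (by positivity)]
          linarith
        linarith
    simp only [hκ]
    rw [projIcc_of_mem zero_le_one h4]
  have hκc : ContinuousOn (fun z : Eu k × ℝ => κ z.1 z.2)
      (Metric.sphere (0 : Eu k) 1 ×ˢ Icc (0 : ℝ) 1) := by
    rw [continuousOn_pi]
    intro j
    simp only [hκ]
    refine continuous_projIcc.comp_continuousOn ?_
    refine continuousOn_const.add (ContinuousOn.div ?_ ?_ ?_)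
    · fun_prop
    · exact (continuous_const.mul (hMc.comp continuous_fst)).continuousOn
    · intro z hz
      have := hMpos z.1 hz.1
      positivity
  refine t_NC k ⟨fun s t => (e (H (κ s t) 0)).1.1, ?_, ?_, ?_, ?_⟩
  · have h1 : Continuous fun κ' : Fin (k + 1) → unitInterval => (e (H κ' 0)).1.1 := by
      have h2 : Continuous fun κ' : Fin (k + 1) → unitInterval => H κ' 0 :=
        hH1.comp (continuous_id.prodMk continuous_const)
      exact continuous_fst.comp (continuous_subtype_val.comp (e.continuous.comp h2))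
    exact h1.comp_continuousOn hκc
  · intro s hs t ht
    rw [mem_sphere_zero_iff_norm]
    exact hF _ (hH2 _)
  · refine ⟨(e (H (κ (EuclideanSpace.single 0 1) 0) 0)).1.1, fun s hs => ?_⟩
    have : κ s 0 = κ (EuclideanSpace.single 0 1) 0 := by
      funext j
      simp only [hκ]
      rw [zero_mul, zero_mul, zero_div, zero_div]
    dsimp only
    rw [this]
  · intro s hs
    have hsn : ‖s‖ = 1 := by rwa [mem_sphere_zero_iff_norm] at hs
    have h0 := hMpos s hs
    have hw : wv (κ s 1) = (M s)⁻¹ • s := by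
      ext j
      show 2 * ((κ s 1 j : unitInterval) : ℝ) - 1 = (M s)⁻¹ * s j
      rw [hκv s hs 1 ⟨zero_le_one, le_rfl⟩ j]
      field_simp
      ring
    have hw1 : ‖wv (κ s 1)‖ = (M s)⁻¹ := by
      rw [hw, norm_smul, hsn, mul_one, norm_inv, Real.norm_eq_abs, abs_of_pos h0]
    have hM2 : 1 ≤ (M s)⁻¹ := by
      rw [one_le_inv₀ h0]
      rw [← hsn]
      exact hM1 s
    have hu : uv (κ s 1) = s := by
      unfold uv
      rw [hw1, max_eq_right hM2, inv_inv, hw, smul_smul, mul_inv_cancel₀ h0.ne', one_smul]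
    have hb : κ s 1 ∈ Cube.boundary (Fin (k + 1)) := by
      obtain ⟨j, hj⟩ : ∃ j, |s j| = M s := by
        by_contra hn
        push Not at hn
        have h1 : M s < M s := by
          conv_lhs => rw [hM]
          dsimp only
          rw [pi_norm_lt_iff h0]
          intro j
          rw [Real.norm_eq_abs]
          exact lt_of_le_of_ne (hMle s j) (hn j)
        exact lt_irrefl _ h1
      refine ⟨j, ?_⟩
      have h2 := hκv s hs 1 ⟨zero_le_one, le_rfl⟩ j
      rcases abs_choice (s j) with h | h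
      · right
        rw [h] at hj
        apply Subtype.ext
        rw [h2, hj, Set.Icc.coe_one]
        field_simp
        norm_num
      · left
        rw [h] at hj
        have hj' : s j = - M s := by linarith
        apply Subtype.ext
        rw [h2, hj', Set.Icc.coe_zero]
        field_simp
        norm_num
    dsimp only
    rw [hH4 _ hb 0, hfe]
    exact hu

end Pool.Agent.Helper8.GR
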