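import Pool.Agent.R520.IF.RECF

/-!
# Relative form of the construction: one step and the induction

Adapted from `R520/IF/RECF.lean`: the family is kept fixed on a set where only the first weight
is positive.
-/

set_option autoImplicit false

open Set Topology Filter

namespace Pool.Agent.Helper8.GR

open Pool.Agent.Y489.GE Pool.Agent.R203.IF

theorem stepR (X K : Type) [MetricSpace X] [TopologicalSpace K] (F : Set X) (p : X)
    (a b B : ℝ) (hpF : p ∈ F) (ha : 0 ≤ a) (hb : 0 ≤ b) (haB : a ≤ B) (hbB : b ≤ B)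
    (hCP : CPF F p a b B) (f : K → X) (T t : K → ℝ) (Γ ρ : K → ℝ → X) (hT : Continuous T)
    (ht : Continuous t) (hT0 : ∀ k, 0 ≤ T k) (ht0 : ∀ k, 0 ≤ t k)
    (hΓ : ContinuousOn Γ {k | 0 < T k}) (hρ : ContinuousOn ρ {k | 0 < t k})
    (hΓp : ∀ k, 0 < T k → Γ k ∈ PF F a ∧ Γ k a = f k)
    (hρp : ∀ k, 0 < t k → ρ k ∈ Pa p b ∧ ρ k b = f k) :
    ∃ Γ' : K → ℝ → X, ContinuousOn Γ' {k | 0 < T k + t k} ∧
      (∀ k, 0 < T k + t k → Γ' k ∈ PF F B ∧ Γ' k B = f k) ∧
      ∀ k, 0 < T k → t k = 0 → Γ' k = Γ k := by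
  classical
  obtain ⟨C, hC, hCP', hCB, hC0, hC1, hCst⟩ := hCP
  have hz : ∀ k : K, 0 < T k ∧ 0 < t k → ((Γ k, ρ k) : (ℝ → X) × (ℝ → X)) ∈ QF F p a b := by
    intro k hk
    exact ⟨(hΓp k hk.1).1, (hρp k hk.2).1, (hΓp k hk.1).2.trans (hρp k hk.2).2.symm⟩
  set Γ' : K → ℝ → X := fun k => if h : 0 < T k ∧ 0 < t k then
    C ⟨(Γ k, ρ k), hz k h⟩ (t k / (T k + t k)) else if 0 < T k then Γ k else ρ k with hΓ'
  have hpos : ∀ k (h : 0 < T k ∧ 0 < t k), Γ' k = C ⟨(Γ k, ρ k), hz k h⟩ (t k / (T k + t k)) := by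
    intro k h
    simp only [hΓ']
    rw [dif_pos h]
  have hposT : ∀ k, 0 < T k → ¬ 0 < t k → Γ' k = Γ k := by
    intro k h1 h2
    simp only [hΓ']
    rw [dif_neg (fun h => h2 h.2), if_pos h1]
  have hpost : ∀ k, ¬ 0 < T k → Γ' k = ρ k := by
    intro k h1
    simp only [hΓ']
    rw [dif_neg (fun h => h1 h.1), if_neg h1]
  have hs : ∀ k₀, 0 < T k₀ + t k₀ → ContinuousAt (fun k => t k / (T k + t k)) k₀ := by
    intro k₀ h
    exact ht.continuousAt.div (hT.continuousAt.add ht.continuousAt) h.ne'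
  refine ⟨Γ', ?_, ?_, ?_⟩
  · intro k₀ hk₀
    have hk₀' : 0 < T k₀ + t k₀ := hk₀
    apply ContinuousAt.continuousWithinAt
    by_cases h1 : 0 < T k₀
    · by_cases h2 : 0 < t k₀
      · -- both positive
        have hO : IsOpen {k | 0 < T k ∧ 0 < t k} :=
          (isOpen_lt continuous_const hT).inter (isOpen_lt continuous_const ht)
        have hon : ContinuousOn Γ' {k | 0 < T k ∧ 0 < t k} := by
          rw [continuousOn_iff_continuous_domRestrict]
          have heq : Set.domRestrict {k | 0 < T k ∧ 0 < t k} Γ' =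
              fun k : {k | 0 < T k ∧ 0 < t k} =>
                C ⟨(Γ k, ρ k), hz k k.2⟩ (t k / (T k + t k)) := by
            funext k
            exact hpos k k.2
          rw [heq]
          have c1 : Continuous (fun k : {k | 0 < T k ∧ 0 < t k} => Γ k) :=
            continuousOn_iff_continuous_domRestrict.mp (hΓ.mono (fun k hk => hk.1))
          have c2 : Continuous (fun k : {k | 0 < T k ∧ 0 < t k} => ρ k) :=
            continuousOn_iff_continuous_domRestrict.mp (hρ.mono (fun k hk => hk.2))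
          have c3 : Continuous (fun k : {k | 0 < T k ∧ 0 < t k} => t k / (T k + t k)) := by
            refine (ht.comp continuous_subtype_val).div
              ((hT.comp continuous_subtype_val).add (ht.comp continuous_subtype_val)) ?_
            intro k
            exact (add_pos k.2.1 k.2.2).ne'
          have c4 : Continuous (fun k : {k | 0 < T k ∧ 0 < t k} =>
              ((⟨(Γ k, ρ k), hz k k.2⟩ : ↥(QF F p a b)), t k / (T k + t k))) :=
            ((c1.prodMk c2).subtype_mk _).prodMk c3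
          exact hC.comp c4
        exact hon.continuousAt (hO.mem_nhds ⟨h1, h2⟩)
      · -- only `T` positive
        have ht00 : t k₀ = 0 := le_antisymm (not_lt.mp h2) (ht0 k₀)
        have hev : Γ' =ᶠ[𝓝 k₀] Γ := by
          have e1 : ∀ᶠ k in 𝓝 k₀, 0 < T k := (isOpen_lt continuous_const hT).mem_nhds h1
          have e2 : ∀ᶠ k in 𝓝 k₀, t k / (T k + t k) < 1 / 4 := by
            apply (hs k₀ hk₀').eventually_lt_const
            show t k₀ / (T k₀ + t k₀) < 1 / 4
            rw [ht00, zero_div]; norm_num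
          filter_upwards [e1, e2] with k hk1 hk2
          by_cases hk3 : 0 < t k
          · rw [hpos k ⟨hk1, hk3⟩, hC0 _ _ hk2.le]
          · exact hposT k hk1 hk3
        exact (hΓ.continuousAt ((isOpen_lt continuous_const hT).mem_nhds h1)).congr hev.symm
    · -- only `t` positive
      have hT00 : T k₀ = 0 := le_antisymm (not_lt.mp h1) (hT0 k₀)
      have h2 : 0 < t k₀ := by linarith
      have hev : Γ' =ᶠ[𝓝 k₀] ρ := by
        have e1 : ∀ᶠ k in 𝓝 k₀, 0 < t k := (isOpen_lt continuous_const ht).mem_nhds h2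
        have e2 : ∀ᶠ k in 𝓝 k₀, 3 / 4 < t k / (T k + t k) := by
          apply (hs k₀ hk₀').eventually_const_lt
          show 3 / 4 < t k₀ / (T k₀ + t k₀)
          rw [hT00, zero_add, div_self h2.ne']; norm_num
        filter_upwards [e1, e2] with k hk1 hk2
        by_cases hk3 : 0 < T k
        · rw [hpos k ⟨hk3, hk1⟩, hC1 _ _ hk2.le]
        · exact hpost k hk3
      exact (hρ.continuousAt ((isOpen_lt continuous_const ht).mem_nhds h2)).congr hev.symm
  · intro k hk
    by_cases h1 : 0 < T k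
    · by_cases h2 : 0 < t k
      · rw [hpos k ⟨h1, h2⟩]
        exact ⟨hCP' _ _, (hCB _ _).trans (hΓp k h1).2⟩
      · rw [hposT k h1 h2]
        obtain ⟨h3, h4⟩ := hΓp k h1
        exact ⟨PF.mono haB h3, (h3.2.2.2 B haB).trans h4⟩
    · have h2 : 0 < t k := by
        have := hT0 k
        have h3 : T k = 0 := le_antisymm (not_lt.mp h1) this
        linarith
      rw [hpost k h1]
      obtain ⟨h3, h4⟩ := hρp k h2
      exact ⟨PF.mono hbB (Pa.toPF hpF h3), (h3.2.2 B hbB).trans h4⟩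
  · intro k h1 h2
    exact hposT k h1 (by rw [h2]; exact lt_irrefl _)

/-- the local data of the relative form: the paths of the first family start in `F`; on `A` only
the first weight is positive -/
def DataR {X K : Type} [MetricSpace X] [TopologicalSpace K] (F : Set X) (p : X) (b : ℝ) (q : ℕ)
    (f : K → X) (A : Set K) (t : ℕ → K → ℝ) (ρ : ℕ → K → ℝ → X) : Prop :=
  (∀ j, Continuous (t j)) ∧ (∀ j k, 0 ≤ t j k) ∧ (∀ k, ∃ j, j ≤ q ∧ 0 < t j k) ∧
  (∀ j, ContinuousOn (ρ j) {k | 0 < t j k}) ∧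
  (∀ k, 0 < t 0 k → ρ 0 k ∈ PF F b ∧ ρ 0 k b = f k) ∧
  (∀ j k, 0 < t (j + 1) k → ρ (j + 1) k ∈ Pa p b ∧ ρ (j + 1) k b = f k) ∧
  ∀ k ∈ A, 0 < t 0 k ∧ (∀ j, t (j + 1) k = 0) ∧ ρ 0 k = fun _ => f k

theorem recR (hCP : S_CPF) (X K : Type) [MetricSpace X] [TopologicalSpace K] (F : Set X) (p : X)
    (lam b : ℝ) (q : ℕ) (hpF : p ∈ F) (hlam : 1 ≤ lam) (hb : 0 ≤ b)
    (hOm : ∀ j, j < q → OFC F p (al lam b j + b) (lam * (al lam b j + b)))
    (f : K → X) (A : Set K) (t : ℕ → K → ℝ) (ρ : ℕ → K → ℝ → X) (hD : DataR F p b q f A t ρ) :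
    ∃ Γ : K → ℝ → X, Continuous Γ ∧ (∀ k, Γ k ∈ PF F (al lam b q) ∧ Γ k (al lam b q) = f k) ∧
      ∀ k ∈ A, Γ k = fun _ => f k := by
  obtain ⟨htc, ht0, hex, hρc, hρ0, hρ, hρA⟩ := hD
  have main : ∀ n, n ≤ q → ∃ Γ : K → ℝ → X,
      ContinuousOn Γ {k | 0 < ∑ j ∈ Finset.range (n + 1), t j k} ∧
      (∀ k, 0 < ∑ j ∈ Finset.range (n + 1), t j k →
        Γ k ∈ PF F (al lam b n) ∧ Γ k (al lam b n) = f k) ∧
      ∀ k ∈ A, Γ k = fun _ => f k := by
    intro n
    induction n with
    | zero =>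
      intro _
      refine ⟨ρ 0, ?_, ?_, fun k hk => (hρA k hk).2.2⟩
      · simpa using hρc 0
      · intro k hk
        rw [Finset.sum_range_one] at hk
        exact hρ0 k hk
    | succ n ih =>
      intro hn
      obtain ⟨Γ, h1, h2, h3⟩ := ih (by omega)
      have hal := Pool.Agent.R520.IF.al_ge hlam hb n
      have ha0 : 0 ≤ al lam b n := hb.trans hal
      have h4 : al lam b n + b ≤ lam * (al lam b n + b) := by
        nlinarith
      have hcp : CPF F p (al lam b n) b (al lam b (n + 1)) :=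
        hCP X F p (al lam b n) b (lam * (al lam b n + b)) hpF ha0 hb h4 (hOm n (by omega))
      have h5 : al lam b (n + 1) = lam * (al lam b n + b) + b := rfl
      obtain ⟨Γ', h6, h7, h8⟩ := stepR X K F p (al lam b n) b (al lam b (n + 1)) hpF ha0 hb
        (by rw [h5]; linarith) (Pool.Agent.R520.IF.al_ge hlam hb (n + 1)) hcp f
        (fun k => ∑ j ∈ Finset.range (n + 1), t j k) (t (n + 1)) Γ (ρ (n + 1))
        (continuous_finsetSum _ fun j _ => htc j) (htc (n + 1))
        (fun k => Finset.sum_nonneg fun j _ => ht0 j k) (ht0 (n + 1)) h1 (hρc (n + 1)) h2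
        (hρ n)
      refine ⟨Γ', ?_, ?_, ?_⟩
      · simpa only [Finset.sum_range_succ _ (n + 1)] using h6
      · intro k hk
        rw [Finset.sum_range_succ _ (n + 1)] at hk
        exact h7 k hk
      · intro k hA
        obtain ⟨a1, a2, a3⟩ := hρA k hA
        rw [h8 k ?_ (a2 n), h3 k hA]
        exact lt_of_lt_of_le a1 (Finset.single_le_sum (f := fun j => t j k)
          (fun i _ => ht0 i k) (Finset.mem_range.2 (by omega)))
  obtain ⟨Γ, h1, h2, h3⟩ := main q le_rfl
  have hpos : ∀ k, 0 < ∑ j ∈ Finset.range (q + 1), t j k := by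
    intro k
    obtain ⟨j, hj, hk⟩ := hex k
    exact lt_of_lt_of_le hk (Finset.single_le_sum (f := fun j => t j k) (fun i _ => ht0 i k)
      (Finset.mem_range.2 (by omega)))
  refine ⟨Γ, ?_, fun k => h2 k (hpos k), h3⟩
  rw [← continuousOn_univ]
  refine h1.mono fun k _ => hpos k

end Pool.Agent.Helper8.GR
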