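import Pool.Agent.Helper8.GR.Sphere
import Pool.Agent.Helper8.GR.Inv
import Pool.Agent.R609.IF.PGF
import Pool.Agent.Y911.GE.LIFT

/-!
# Spheres with the symmetry of a torus
-/

set_option autoImplicit false

open Set Topology Filter

noncomputable section

namespace Pool.Agent.Helper8.GR

open Pool.Agent.Y489.GE Pool.Agent.R203.IF Pool.Agent.N489.RW

/-- the unit sphere of `ℂ^m` -/
abbrev CS (m : ℕ) : Type := {v : Fin m → ℂ // ∑ i, ‖v i‖ ^ 2 = 1}

/-- rotations of the coordinates -/
def rotC {m : ℕ} (z : Fin m → Circle) (v : CS m) : CS m :=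
  ⟨fun i => z i * v.1 i, by
    have h := v.2
    simpa only [norm_mul, Circle.norm_coe, one_mul] using h⟩

theorem rotC_val {m : ℕ} (z : Fin m → Circle) (v : CS m) (i : Fin m) :
    (rotC z v).1 i = z i * v.1 i := rfl

/-- the metric is invariant under the rotation `z` -/
def IsoBy {m : ℕ} {X : Type} [MetricSpace X] (e : X ≃ₜ CS m) (z : Fin m → Circle) : Prop :=
  ∀ x y x' y' : X, (∀ i, (e x').1 i = z i * (e x).1 i) → (∀ i, (e y').1 i = z i * (e y).1 i) →
    dist x' y' = dist x y

variable {m : ℕ} {X : Type} [MetricSpace X]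

/-- the rotations on `X` -/
def rX (e : X ≃ₜ CS m) (z : Fin m → Circle) (x : X) : X := e.symm (rotC z (e x))

theorem e_rX (e : X ≃ₜ CS m) (z : Fin m → Circle) (x : X) : e (rX e z x) = rotC z (e x) := by
  unfold rX
  rw [Homeomorph.apply_symm_apply]

theorem e_rX' (e : X ≃ₜ CS m) (z : Fin m → Circle) (x : X) (i : Fin m) :
    (e (rX e z x)).1 i = z i * (e x).1 i := by
  rw [e_rX, rotC_val]

theorem rX_ext (e : X ≃ₜ CS m) {x y : X} (h : ∀ i, (e x).1 i = (e y).1 i) : x = y := by
  apply e.injective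
  apply Subtype.ext
  funext i
  exact h i

theorem rX_one (e : X ≃ₜ CS m) (x : X) : rX e 1 x = x := by
  apply rX_ext e
  intro i
  rw [e_rX', Pi.one_apply, Circle.coe_one, one_mul]

theorem rX_mul (e : X ≃ₜ CS m) (z w : Fin m → Circle) (x : X) :
    rX e (z * w) x = rX e z (rX e w x) := by
  apply rX_ext e
  intro i
  rw [e_rX', e_rX', e_rX', Pi.mul_apply, Circle.coe_mul, mul_assoc]

theorem rX_dist {e : X ≃ₜ CS m} {z : Fin m → Circle} (h : IsoBy e z) (x y : X) :
    dist (rX e z x) (rX e z y) = dist x y :=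
  h x y _ _ (fun i => e_rX' e z x i) (fun i => e_rX' e z y i)

/-- the isometry of a rotation -/
def rI {e : X ≃ₜ CS m} {z : Fin m → Circle} (h : IsoBy e z) : X ≃ᵢ X where
  toFun := rX e z
  invFun := rX e z⁻¹
  left_inv x := by rw [← rX_mul, inv_mul_cancel, rX_one]
  right_inv x := by rw [← rX_mul, mul_inv_cancel, rX_one]
  isometry_toFun := Isometry.of_dist_eq fun x y => rX_dist h x y

/-- the signs: `-1` outside `s` -/
def sg' (s : Finset (Fin m)) : Fin m → Circle := fun i => if i ∈ s then 1 else -1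

theorem sg_prod (a : Fin m → ℤ) (s : Finset (Fin m)) (h : Even (∑ i ∈ sᶜ, a i)) :
    ∏ i, sg' s i ^ a i = 1 := by
  classical
  have h1 : ∏ i, sg' s i ^ a i = ∏ i ∈ sᶜ, (-1 : Circle) ^ a i := by
    rw [← Finset.prod_compl_mul_prod s]
    have h2 : ∏ i ∈ s, sg' s i ^ a i = 1 :=
      Finset.prod_eq_one fun i hi => by
        unfold sg'
        rw [if_pos hi, one_zpow]
    rw [h2, mul_one]
    refine Finset.prod_congr rfl fun i hi => ?_
    unfold sg'
    rw [if_neg (Finset.mem_compl.1 hi)]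
  have key : ∀ t : Finset (Fin m), ∏ i ∈ t, (-1 : Circle) ^ a i = (-1) ^ (∑ i ∈ t, a i) := by
    intro t
    induction t using Finset.induction_on with
    | empty => simp
    | insert i t hi ih => rw [Finset.prod_insert hi, Finset.sum_insert hi, zpow_add, ih]
  obtain ⟨r, hr⟩ := h
  rw [h1, key, hr, zpow_add, ← mul_zpow, neg_mul_neg, one_mul, one_zpow]

theorem sg_sq (s : Finset (Fin m)) : sg' s * sg' s = 1 := by
  funext i
  show sg' s i * sg' s i = 1
  unfold sg'
  split_ifs
  · exact one_mul 1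
  · rw [neg_mul_neg, one_mul]

/-- the antipodal map -/
theorem case_even [CompactSpace X] {e : X ≃ₜ CS m} (h : IsoBy e (sg' (∅ : Finset (Fin m))))
    (hX : GeodSpace X) (hm : 1 ≤ m) :
    ClosedGeod X (2 * Metric.diam (univ : Set X)) := by
  classical
  have : Nonempty X := by
    refine ⟨e.symm ⟨Pi.single ⟨0, hm⟩ 1, ?_⟩⟩
    rw [Finset.sum_eq_single (⟨0, hm⟩ : Fin m)]
    · rw [Pi.single_eq_same, norm_one, one_pow]
    · intro i _ hi
      rw [Pi.single_eq_of_ne hi, norm_zero]
      norm_num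
    · intro h
      exact (h (Finset.mem_univ _)).elim
  have h1 := free_closed hX (rI h) 2 (by norm_num) ?_ ?_
  · exact_mod_cast h1
  · ext x
    rw [pow_two]
    show rX e _ (rX e _ x) = x
    rw [← rX_mul, sg_sq, rX_one]
  · intro x hx
    have h2 : ∀ i, (e x).1 i = 0 := by
      intro i
      have h3 : (e (rX e (sg' ∅) x)).1 i = (e x).1 i := by
        have : rX e (sg' ∅) x = x := hx
        rw [this]
      rw [e_rX'] at h3
      have h4 : ((sg' (∅ : Finset (Fin m)) i : Circle) : ℂ) = -1 := by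
        unfold sg'
        rw [if_neg (Finset.notMem_empty i)]
        simp
      rw [h4] at h3
      linear_combination (-1 / 2 : ℂ) * h3
    have h5 := (e x).2
    simp [h2] at h5

end Pool.Agent.Helper8.GR
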