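import Pool.Agent.Helper8.GR.Torus

/-!
# Spheres with the symmetry of a torus: the involution with a circle of fixed points
-/

set_option autoImplicit false

open Set Topology Filter

noncomputable section

namespace Pool.Agent.Helper8.GR

open Pool.Agent.Y489.GE Pool.Agent.R203.IF Pool.Agent.N489.RW

/-- the space of the other coordinates -/
abbrev Wi {m : ℕ} (i : Fin m) : Type := EuclideanSpace ℂ {l : Fin m // l ≠ i}

/-- splitting off a coordinate -/
def spl {m : ℕ} (i : Fin m) : CS m ≃ₜ SW 1 (Wi i) where
  toFun v := ⟨(WithLp.toLp 2 ![(v.1 i).re, (v.1 i).im], WithLp.toLp 2 fun l => v.1 l.1), by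
    rw [EuclideanSpace.norm_sq_eq, EuclideanSpace.norm_sq_eq]
    have h := v.2
    rw [Fintype.sum_eq_add_sum_subtype_ne _ i] at h
    rw [Fin.sum_univ_two]
    have h1 : ‖v.1 i‖ ^ 2 = (v.1 i).re ^ 2 + (v.1 i).im ^ 2 := by
      rw [Complex.sq_norm, Complex.normSq_apply]
      ring
    rw [h1] at h
    simpa using h⟩
  invFun w := ⟨fun l => if h : l = i then ((w.1.1 0 : ℝ) : ℂ) + ((w.1.1 1 : ℝ) : ℂ) * Complex.I
      else w.1.2 ⟨l, h⟩, by
    have h := w.2
    rw [EuclideanSpace.norm_sq_eq, EuclideanSpace.norm_sq_eq, Fin.sum_univ_two] at h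
    rw [Fintype.sum_eq_add_sum_subtype_ne _ i]
    dsimp only
    rw [dif_pos rfl]
    have h1 : ‖((w.1.1 0 : ℝ) : ℂ) + ((w.1.1 1 : ℝ) : ℂ) * Complex.I‖ ^ 2 =
        ‖w.1.1 0‖ ^ 2 + ‖w.1.1 1‖ ^ 2 := by
      rw [Complex.sq_norm, Complex.normSq_apply]
      simp
      ring
    rw [h1]
    refine Eq.trans ?_ h
    congr 1
    refine Finset.sum_congr rfl fun l _ => ?_
    rw [dif_neg l.2]⟩
  left_inv v := by
    apply Subtype.ext
    funext l
    dsimp only
    by_cases h : l = i
    · rw [dif_pos h, h]
      exact Complex.re_add_im _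
    · rw [dif_neg h]
  right_inv w := by
    apply Subtype.ext
    refine Prod.ext ?_ ?_
    · ext s
      dsimp only
      rw [dif_pos rfl]
      fin_cases s <;> simp
    · ext l
      dsimp only
      rw [dif_neg l.2]
  continuous_toFun := by
    refine Continuous.subtype_mk (Continuous.prodMk ?_ ?_) _
    · refine (PiLp.continuous_toLp 2 _).comp (continuous_pi fun s => ?_)
      have h1 : Continuous fun v : CS m => v.1 i := (continuous_apply i).comp continuous_subtype_val
      fin_cases s
      · exact Complex.continuous_re.comp h1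
      · exact Complex.continuous_im.comp h1
    · refine (PiLp.continuous_toLp 2 _).comp (continuous_pi fun l => ?_)
      exact (continuous_apply l.1).comp continuous_subtype_val
  continuous_invFun := by
    refine Continuous.subtype_mk (continuous_pi fun l => ?_) _
    by_cases h : l = i
    · simp only [dif_pos h]
      fun_prop
    · simp only [dif_neg h]
      fun_prop

theorem spl_fst {m : ℕ} (i : Fin m) (v : CS m) :
    (spl i v).1.1 = WithLp.toLp 2 ![(v.1 i).re, (v.1 i).im] := rfl

theorem spl_snd {m : ℕ} (i : Fin m) (v : CS m) :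
    (spl i v).1.2 = WithLp.toLp 2 fun l : {l : Fin m // l ≠ i} => v.1 l.1 := rfl

/-- the one-parameter group -/
def og {m : ℕ} (w : Fin m → ℝ) (θ : ℝ) : Fin m → Circle := fun l => Circle.exp (w l * θ)

theorem og_zero {m : ℕ} (w : Fin m → ℝ) : og w 0 = 1 := by
  funext l
  unfold og
  simp

theorem og_add {m : ℕ} (w : Fin m → ℝ) (θ η : ℝ) : og w (θ + η) = og w θ * og w η := by
  funext l
  rw [Pi.mul_apply]
  unfold og
  rw [mul_add, Circle.exp_add]

theorem og_cont {m : ℕ} (w : Fin m → ℝ) : Continuous (og w) := by
  refine continuous_pi fun l => ?_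
  unfold og
  exact Circle.exp.continuous.comp (continuous_const.mul continuous_id)

theorem exp_zpow (t : ℝ) (n : ℤ) : Circle.exp t ^ n = Circle.exp (n * t) := by
  apply Circle.ext
  rw [Circle.coe_zpow, Circle.coe_exp, Circle.coe_exp, ← Complex.exp_int_mul]
  congr 1
  push_cast
  ring

variable {m : ℕ} {X : Type} [MetricSpace X]

theorem rX_cont (e : X ≃ₜ CS m) : Continuous fun z : (Fin m → Circle) × X => rX e z.1 z.2 := by
  unfold rX
  refine e.symm.continuous.comp (Continuous.subtype_mk (continuous_pi fun l => ?_) _)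
  refine Continuous.mul ?_ ?_
  · exact continuous_subtype_val.comp ((continuous_apply l).comp continuous_fst)
  · exact (continuous_apply l).comp (continuous_subtype_val.comp
      (e.continuous.comp continuous_snd))

/-- a circle of fixed points which is an orbit -/
theorem case_circle [CompactSpace X] {e : X ≃ₜ CS m} (i j : Fin m) (hij : i ≠ j)
    (hs : IsoBy e (sg' ({i} : Finset (Fin m)))) (w : Fin m → ℝ) (hw : ∀ θ, IsoBy e (og w θ))
    (hwi : w i ≠ 0) (r : ℝ) (hr : 0 < r) (hX : GeodSpace X) (hU : UniqGeod X r) :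
    ClosedGeod X (8 * Metric.diam (univ : Set X)) := by
  classical
  set σ : X → X := rX e (sg' {i}) with hσ
  have hσI : Isometry σ := (rI hs).isometry
  have sgi : ((sg' ({i} : Finset (Fin m)) i : Circle) : ℂ) = 1 := by
    unfold sg'
    rw [if_pos (Finset.mem_singleton_self i)]
    simp
  have sgl : ∀ l, l ≠ i → ((sg' ({i} : Finset (Fin m)) l : Circle) : ℂ) = -1 := by
    intro l hl
    unfold sg'
    rw [if_neg (fun h => hl (Finset.mem_singleton.1 h))]
    simp
  have hpm : ∑ l, ‖(Pi.single i (1 : ℂ) : Fin m → ℂ) l‖ ^ 2 = 1 := by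
    rw [Finset.sum_eq_single i]
    · rw [Pi.single_eq_same, norm_one, one_pow]
    · intro l _ hl
      rw [Pi.single_eq_of_ne hl, norm_zero]
      norm_num
    · intro h
      exact (h (Finset.mem_univ _)).elim
  set p : X := e.symm ⟨Pi.single i 1, hpm⟩ with hp
  have hpi : ∀ l, (e p).1 l = (Pi.single i (1 : ℂ) : Fin m → ℂ) l := by
    intro l
    rw [hp, Homeomorph.apply_symm_apply]
  have hσp : σ p = p := by
    apply rX_ext e
    intro l
    rw [hσ, e_rX', hpi]
    by_cases hl : l = i
    · rw [hl, sgi, one_mul]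
    · rw [Pi.single_eq_of_ne hl, mul_zero]
  -- the action
  let A : MulAction (Multiplicative ℝ) X :=
    { smul := fun g x => rX e (og w (Multiplicative.toAdd g)) x
      one_smul := fun x => by
        show rX e (og w (Multiplicative.toAdd 1)) x = x
        rw [toAdd_one, og_zero, rX_one]
      mul_smul := fun g g' x => by
        show rX e (og w (Multiplicative.toAdd (g * g'))) x =
          rX e (og w (Multiplicative.toAdd g))
            (rX e (og w (Multiplicative.toAdd g')) x)
        rw [toAdd_mul, og_add, rX_mul] }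
  have hsm : ∀ (g : Multiplicative ℝ) (x : X),
      g • x = rX e (og w (Multiplicative.toAdd g)) x := fun _ _ => rfl
  have hC : ContinuousSMul (Multiplicative ℝ) X := by
    refine ⟨?_⟩
    have h1 : Continuous fun z : Multiplicative ℝ × X =>
        ((og w (Multiplicative.toAdd z.1), z.2) : (Fin m → Circle) × X) := by
      refine Continuous.prodMk ?_ continuous_snd
      exact (og_cont w).comp (continuous_toAdd.comp continuous_fst)
    exact (rX_cont e).comp h1
  have hP : PushS X σ p 1 := by
    refine Pool.Agent.R609.IF.t_PGF Pool.Agent.Y911.GE.t_LIFT X (Multiplicative ℝ) σ p 1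
      hσI.continuous hσp ?_ ?_ ?_
    · intro g x y
      rw [hsm, hsm, one_mul, rX_dist (hw _)]
    · intro g x
      rw [hsm, hsm, hσ, ← rX_mul, ← rX_mul, mul_comm]
    · have hcx : Continuous fun x : X => (e x).1 i :=
        (continuous_apply i).comp (continuous_subtype_val.comp e.continuous)
      refine ⟨{x | (e x).1 i ∈ Complex.slitPlane}, ?_,
        fun x => Multiplicative.ofAdd (Complex.arg ((e x).1 i) / w i), ?_, ?_, ?_⟩
      · refine (Complex.isOpen_slitPlane.preimage hcx).mem_nhds ?_
        show (e p).1 i ∈ Complex.slitPlane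
        rw [hpi, Pi.single_eq_same]
        exact Complex.one_mem_slitPlane
      · refine continuous_ofAdd.comp_continuousOn (ContinuousOn.div_const ?_ _)
        intro x hx
        have h1 : ContinuousAt Complex.arg ((e x).1 i) := Complex.continuousAt_arg hx.1
        exact (ContinuousAt.comp (f := fun x : X => (e x).1 i) h1
          hcx.continuousAt).continuousWithinAt
      · show Multiplicative.ofAdd (Complex.arg ((e p).1 i) / w i) = 1
        rw [hpi, Pi.single_eq_same, Complex.arg_one, zero_div]
        rfl
      · intro x hx hxσ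
        have hx0 : ∀ l, l ≠ i → (e x).1 l = 0 := by
          intro l hl
          have h3 : (e (σ x)).1 l = (e x).1 l := by rw [hxσ]
          rw [hσ, e_rX', sgl l hl] at h3
          linear_combination (-1 / 2 : ℂ) * h3
        have hxn : ‖(e x).1 i‖ = 1 := by
          have h4 := (e x).2
          rw [Finset.sum_eq_single i (fun l _ hl => by rw [hx0 l hl, norm_zero]; norm_num)
            (fun h => (h (Finset.mem_univ _)).elim)] at h4
          have h5 := norm_nonneg ((e x).1 i)
          nlinarith
        rw [hsm, toAdd_ofAdd]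
        apply rX_ext e
        intro l
        rw [e_rX', hpi]
        by_cases hl : l = i
        · rw [hl, Pi.single_eq_same, mul_one]
          unfold og
          rw [Circle.coe_exp, mul_div_cancel₀ _ hwi]
          have h6 := Complex.norm_mul_exp_arg_mul_I ((e x).1 i)
          rw [hxn, Complex.ofReal_one, one_mul] at h6
          exact h6
        · rw [Pi.single_eq_of_ne hl, mul_zero, hx0 l hl]
  have hj : j ≠ i := hij.symm
  have key := sphW 1 (Wi i) (EuclideanSpace.single ⟨j, hj⟩ 1) (by simp) X (e.trans (spl i)) σ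
    ?_ hσI p hσp r 1 hr hX hU hP
  · have h9 : (4 : ℝ) * (∑ i ∈ Finset.range (1 + 1), (1 : ℝ) ^ i) * Metric.diam (univ : Set X) =
        8 * Metric.diam (univ : Set X) := by
      rw [show (∑ i ∈ Finset.range (1 + 1), (1 : ℝ) ^ i) = 2 by norm_num [Finset.sum_range_succ]]
      ring
    rwa [h9] at key
  · intro x
    refine Prod.ext ?_ ?_
    · show (spl i (e (σ x))).1.1 = (spl i (e x)).1.1
      rw [spl_fst, spl_fst, hσ, e_rX', sgi, one_mul]
    · show (spl i (e (σ x))).1.2 = -(spl i (e x)).1.2
      rw [spl_snd, spl_snd]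
      ext l
      show (e (σ x)).1 l.1 = -(e x).1 l.1
      rw [hσ, e_rX', sgl l.1 l.2, neg_one_mul]

end Pool.Agent.Helper8.GR
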