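import Pool.Agent.Helper8.GR.Torus2
import Pool.Agent.Results.MP_3eff7f_gt.CircleDistance

/-!
# Spheres with the symmetry of a torus: rotations of one plane, and the assembly
-/

set_option autoImplicit false

open Set Topology Filter

noncomputable section

namespace Pool.Agent.Helper8.GR

open Pool.Agent.Y489.GE Pool.Agent.R203.IF Pool.Agent.N489.RW

theorem exists_equiv {A B : Type} [DecidableEq B] (E : A ≃ B) (a₀ a₁ : A) (t₀ t₁ : B)
    (ha : a₀ ≠ a₁) (ht : t₀ ≠ t₁) : ∃ b : A ≃ B, b a₀ = t₀ ∧ b a₁ = t₁ := by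
  set E1 := E.trans (Equiv.swap (E a₀) t₀) with hE1
  have h0 : E1 a₀ = t₀ := by
    rw [hE1, Equiv.trans_apply, Equiv.swap_apply_left]
  refine ⟨E1.trans (Equiv.swap (E1 a₁) t₁), ?_, ?_⟩
  · rw [Equiv.trans_apply, h0, Equiv.swap_apply_of_ne_of_ne ?_ ht]
    intro h
    exact ha (E1.injective (h0.trans h))
  · rw [Equiv.trans_apply, Equiv.swap_apply_left]

/-- real or imaginary part -/
def pt (β : Bool) (z : ℂ) : ℝ := if β then z.im else z.re

/-- real coordinates -/
def rc {m n : ℕ} (b : Fin m × Bool ≃ Fin (n + 1)) : CS m ≃ₜ Sn n where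
  toFun v := ⟨fun s => pt (b.symm s).2 (v.1 (b.symm s).1), by
    have h := v.2
    rw [Equiv.sum_comp b.symm (fun s : Fin m × Bool => pt s.2 (v.1 s.1) ^ 2),
      Fintype.sum_prod_type]
    refine Eq.trans ?_ h
    refine Finset.sum_congr rfl fun l _ => ?_
    rw [Fintype.sum_bool, Complex.sq_norm, Complex.normSq_apply]
    simp only [pt]
    simp
    ring⟩
  invFun w := ⟨fun l => ((w.1 (b (l, false)) : ℝ) : ℂ) + ((w.1 (b (l, true)) : ℝ) : ℂ) *
      Complex.I, by
    have h := w.2
    rw [← Equiv.sum_comp b, Fintype.sum_prod_type] at h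
    refine Eq.trans ?_ h
    refine Finset.sum_congr rfl fun l _ => ?_
    rw [Fintype.sum_bool, Complex.sq_norm, Complex.normSq_apply]
    simp
    ring⟩
  left_inv v := by
    apply Subtype.ext
    funext l
    dsimp only
    rw [Equiv.symm_apply_apply, Equiv.symm_apply_apply]
    exact Complex.re_add_im _
  right_inv w := by
    apply Subtype.ext
    funext s
    dsimp only
    obtain ⟨⟨l, β⟩, rfl⟩ := b.surjective s
    rw [Equiv.symm_apply_apply]
    cases β <;> simp [pt]
  continuous_toFun := by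
    refine Continuous.subtype_mk (continuous_pi fun s => ?_) _
    have h1 : Continuous fun v : CS m => v.1 (b.symm s).1 :=
      (continuous_apply _).comp continuous_subtype_val
    unfold pt
    split_ifs
    · exact Complex.continuous_im.comp h1
    · exact Complex.continuous_re.comp h1
  continuous_invFun := by
    refine Continuous.subtype_mk (continuous_pi fun l => ?_) _
    have h1 : ∀ s : Fin (n + 1), Continuous fun w : Sn n => ((w.1 s : ℝ) : ℂ) := fun s =>
      Complex.continuous_ofReal.comp ((continuous_apply s).comp continuous_subtype_val)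
    exact (h1 _).add ((h1 _).mul continuous_const)

theorem rc_val {m n : ℕ} (b : Fin m × Bool ≃ Fin (n + 1)) (v : CS m) (s : Fin (n + 1)) :
    (rc b v).1 s = pt (b.symm s).2 (v.1 (b.symm s).1) := rfl

variable {m : ℕ} {X : Type} [MetricSpace X]

/-- rotations of one plane -/
theorem case_plane [CompactSpace X] {e : X ≃ₜ CS m} (i j : Fin m) (hij : i ≠ j)
    (h : ∀ u : Circle, IsoBy e (fun l => if l = j then u else 1))
    (r : ℝ) (hr : 0 < r) (hX : GeodSpace X) (hU : UniqGeod X r) : ClosedGeod X (8 * ((m : ℝ) - 1) * Metric.diam (univ : Set X)) := by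
  classical
  have hm : 2 ≤ m := by
    have h1 := i.2
    have h2 := j.2
    have h3 : (i : ℕ) ≠ j := fun h => hij (Fin.ext h)
    omega
  obtain ⟨k, hk⟩ : ∃ k, 2 * m = k + 3 := ⟨2 * m - 3, by omega⟩
  have E : Fin m × Bool ≃ Fin (k + 2 + 1) := by
    refine Fintype.equivFinOfCardEq ?_
    rw [Fintype.card_prod, Fintype.card_fin, Fintype.card_bool]
    omega
  obtain ⟨b, hb0, hb1⟩ := exists_equiv E (j, false) (j, true) (Fin.last (k + 1)).castSucc
    (Fin.last (k + 2)) (by simp) (Fin.castSucc_lt_last _).ne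
  let A : MulAction Circle X :=
    { smul := fun u x => rX e (fun l => if l = j then u else 1) x
      one_smul := fun x => by
        show rX e (fun l => if l = j then (1 : Circle) else 1) x = x
        have : (fun l : Fin m => if l = j then (1 : Circle) else 1) = 1 := by
          funext l
          split_ifs <;> rfl
        rw [this, rX_one]
      mul_smul := fun u u' x => by
        show rX e (fun l => if l = j then u * u' else 1) x =
          rX e (fun l => if l = j then u else 1) (rX e (fun l => if l = j then u' else 1) x)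
        rw [← rX_mul]
        congr 1
        funext l
        rw [Pi.mul_apply]
        split_ifs
        · rfl
        · rw [one_mul] }
  have hsm : ∀ (u : Circle) (x : X), u • x = rX e (fun l => if l = j then u else 1) x :=
    fun _ _ => rfl
  have hother : ∀ (u : Circle) (x : X) (l : Fin m), l ≠ j → (e (u • x)).1 l = (e x).1 l := by
    intro u x l hl
    rw [hsm, e_rX', if_neg hl, Circle.coe_one, one_mul]
  have hself : ∀ (u : Circle) (x : X), (e (u • x)).1 j = u * (e x).1 j := by
    intro u x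
    rw [hsm, e_rX', if_pos rfl]
  have key := Pool.Agent.Results.MP_3eff7f_gt.CircleDistance.result.2 X k (e.trans (rc b)) r
    (Metric.diam (univ : Set X)) ⟨?_, ?_⟩ ?_ hr hX hU ?_
  · have e1 : (4 : ℝ) * ((k + 1 : ℕ) : ℝ) * Metric.diam (univ : Set X) =
        8 * ((m : ℝ) - 1) * Metric.diam (univ : Set X) := by
      have h5 : (2 : ℝ) * m = k + 3 := by exact_mod_cast hk
      push_cast
      have h6 : (k : ℝ) = 2 * m - 3 := by linarith
      rw [h6]
      ring
    rwa [e1] at key
  · intro u x s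
    show (rc b (e (u • x))).1 _ = (rc b (e x)).1 _
    rw [rc_val, rc_val]
    have hne : (b.symm s.castSucc.castSucc).1 ≠ j := by
      intro h0
      have h1 : b (b.symm s.castSucc.castSucc) = s.castSucc.castSucc := b.apply_symm_apply _
      rcases hβ : (b.symm s.castSucc.castSucc).2 with _ | _
      · have h2 : b.symm s.castSucc.castSucc = (j, false) := Prod.ext h0 hβ
        rw [h2, hb0] at h1
        have h3 := congrArg Fin.val h1
        have h4 := s.2
        simp at h3
        omega
      · have h2 : b.symm s.castSucc.castSucc = (j, true) := Prod.ext h0 hβ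
        rw [h2, hb1] at h1
        have h3 := congrArg Fin.val h1
        have h4 := s.2
        simp at h3
        omega
    rw [hother u x _ hne]
  · intro u x
    show (((rc b (e (u • x))).1 _ : ℝ) : ℂ) + (((rc b (e (u • x))).1 _ : ℝ) : ℂ) * Complex.I =
      u * ((((rc b (e x)).1 _ : ℝ) : ℂ) + (((rc b (e x)).1 _ : ℝ) : ℂ) * Complex.I)
    rw [rc_val, rc_val, rc_val, rc_val, ← hb0, ← hb1, Equiv.symm_apply_apply,
      Equiv.symm_apply_apply]
    show (((e (u • x)).1 j).re : ℂ) + (((e (u • x)).1 j).im : ℂ) * Complex.I =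
      u * ((((e x).1 j).re : ℂ) + (((e x).1 j).im : ℂ) * Complex.I)
    rw [Complex.re_add_im, Complex.re_add_im, hself]
  · intro u x y
    rw [hsm, hsm, rX_dist (h u)]
  · intro x
    have hpm : ∑ l, ‖(Pi.single i (1 : ℂ) : Fin m → ℂ) l‖ ^ 2 = 1 := by
      rw [Finset.sum_eq_single i]
      · rw [Pi.single_eq_same, norm_one, one_pow]
      · intro l _ hl
        rw [Pi.single_eq_of_ne hl, norm_zero]
        norm_num
      · intro h
        exact (h (Finset.mem_univ _)).elim
    refine ⟨e.symm ⟨Pi.single i 1, hpm⟩, fun u => ?_, ?_⟩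
    · apply rX_ext e
      intro l
      by_cases hl : l = j
      · rw [hl, hself, Homeomorph.apply_symm_apply]
        show (u : ℂ) * (Pi.single i (1 : ℂ) : Fin m → ℂ) j = (Pi.single i (1 : ℂ) : Fin m → ℂ) j
        rw [Pi.single_eq_of_ne hij.symm, mul_zero]
      · rw [hother u _ l hl]
    · exact Metric.dist_le_diam_of_mem isCompact_univ.isBounded (mem_univ _) (mem_univ _)

theorem og_prod {m : ℕ} (a : Fin m → ℤ) (i j : Fin m) (hij : i ≠ j) (θ : ℝ) :
    ∏ l, og (fun l => if l = i then (a j : ℝ) else if l = j then -(a i : ℝ) else 0) θ l ^ a l =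
      1 := by
  classical
  rw [← Finset.mul_prod_erase Finset.univ _ (Finset.mem_univ i),
    ← Finset.mul_prod_erase (Finset.univ.erase i) _
      (Finset.mem_erase.2 ⟨hij.symm, Finset.mem_univ j⟩)]
  have h1 : ∏ l ∈ (Finset.univ.erase i).erase j,
      og (fun l => if l = i then (a j : ℝ) else if l = j then -(a i : ℝ) else 0) θ l ^ a l = 1 := by
    refine Finset.prod_eq_one fun l hl => ?_
    have h2 := (Finset.mem_erase.1 hl).1
    have h3 := (Finset.mem_erase.1 (Finset.mem_erase.1 hl).2).1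
    unfold og
    dsimp only
    rw [if_neg h3, if_neg h2, zero_mul, Circle.exp_zero, one_zpow]
  rw [h1, mul_one]
  unfold og
  dsimp only
  rw [if_pos rfl, if_neg hij.symm, if_pos rfl, exp_zpow, exp_zpow, ← Circle.exp_add]
  have : (a i : ℝ) * (a j * θ) + a j * (-(a i) * θ) = 0 := by ring
  rw [this, Circle.exp_zero]

/-- the metrics on the unit sphere of `ℂ^m` which are invariant under the rotations `z` with
`∏ z_i ^ (a_i) = 1` -/
theorem torus (hm : 2 ≤ m) [CompactSpace X] {a : Fin m → ℤ} {e : X ≃ₜ CS m}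
    (h : ∀ z : Fin m → Circle, ∏ i, z i ^ a i = 1 → IsoBy e z)
    (r : ℝ) (hr : 0 < r) (hX : GeodSpace X) (hU : UniqGeod X r) :
    ClosedGeod X (8 * ((m : ℝ) - 1) * Metric.diam (univ : Set X)) ∧
      ((Even (∑ i, a i) ∨ ∃ i j, i ≠ j ∧ a i ≠ 0 ∧ a j ≠ 0) →
        ClosedGeod X (8 * Metric.diam (univ : Set X))) := by
  classical
  have hd : 0 ≤ Metric.diam (univ : Set X) := Metric.diam_nonneg
  have hm' : (2 : ℝ) ≤ m := by exact_mod_cast hm
  have hsum : ∀ i, ∑ l, a l = a i + ∑ l ∈ ({i} : Finset (Fin m))ᶜ, a l := by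
    intro i
    rw [← Finset.sum_add_sum_compl {i}, Finset.sum_singleton]
  have h8 : (Even (∑ i, a i) ∨ ∃ i j, i ≠ j ∧ a i ≠ 0 ∧ a j ≠ 0) →
        ClosedGeod X (8 * Metric.diam (univ : Set X)) := by
    intro h0
    by_cases he : Even (∑ i, a i)
    · exact ClosedGeod.mono (case_even (h _ (sg_prod a ∅ (by simpa using he))) hX (by omega))
        (mul_le_mul_of_nonneg_right (by norm_num) hd)
    · obtain ⟨i₀, j₀, hij, hi, hj⟩ := h0.resolve_left he
      obtain ⟨i, hi'⟩ : ∃ i, ¬ Even (a i) := by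
        by_contra hn
        push Not at hn
        exact he (Finset.even_sum _ fun i _ => hn i)
      have hev : Even (∑ l ∈ ({i} : Finset (Fin m))ᶜ, a l) := by
        rw [hsum i, Int.even_add] at he
        by_contra hn
        exact he ⟨fun h => (hi' h).elim, fun h => (hn h).elim⟩
      obtain ⟨j, hj1, hj2⟩ : ∃ j, i ≠ j ∧ a j ≠ 0 := by
        by_cases h1 : i = i₀
        · exact ⟨j₀, by rw [h1]; exact hij, hj⟩
        · exact ⟨i₀, h1, hi⟩
      refine case_circle i j hj1 (h _ (sg_prod a _ hev))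
        (fun l => if l = i then (a j : ℝ) else if l = j then -(a i : ℝ) else 0)
        (fun θ => h _ (og_prod a i j hj1 θ)) ?_ r hr hX hU
      rw [if_pos rfl]
      exact_mod_cast hj2
  refine ⟨?_, h8⟩
  by_cases h0 : Even (∑ i, a i) ∨ ∃ i j, i ≠ j ∧ a i ≠ 0 ∧ a j ≠ 0
  · refine ClosedGeod.mono (h8 h0) (mul_le_mul_of_nonneg_right ?_ hd)
    linarith
  · push Not at h0
    obtain ⟨he, h1⟩ := h0
    obtain ⟨i, hi⟩ : ∃ i, a i ≠ 0 := by
      by_contra hn
      push Not at hn
      apply he
      rw [Finset.sum_eq_zero fun i _ => hn i]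
      exact ⟨0, rfl⟩
    obtain ⟨j, hj⟩ : ∃ j, i ≠ j := by
      by_cases hi0 : i = ⟨0, by omega⟩
      · exact ⟨⟨1, by omega⟩, by rw [hi0]; simp⟩
      · exact ⟨⟨0, by omega⟩, hi0⟩
    refine case_plane i j hj (fun u => h _ ?_) r hr hX hU
    refine Finset.prod_eq_one fun l _ => ?_
    by_cases hl : l = j
    · rw [if_pos hl, hl, h1 i j hj hi, zpow_zero]
    · rw [if_neg hl, one_zpow]

theorem exp_pi : Circle.exp Real.pi = -1 := by
  apply Circle.ext
  rw [Circle.coe_exp, Complex.exp_pi_mul_I]
  simp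

theorem exp_pi_even (n : ℤ) (h : Even n) : Circle.exp (n * Real.pi) = 1 := by
  rw [← exp_zpow, exp_pi]
  obtain ⟨r, hr⟩ := h
  rw [hr, zpow_add, ← mul_zpow, neg_mul_neg, one_mul, one_zpow]

theorem exp_pi_odd (n : ℤ) (h : ¬ Even n) : Circle.exp (n * Real.pi) = -1 := by
  rw [Int.not_even_iff_odd] at h
  obtain ⟨r, hr⟩ := h
  rw [hr, ← exp_zpow, exp_pi, zpow_add, zpow_one, two_mul, zpow_add, ← mul_zpow, neg_mul_neg,
    one_mul, one_zpow, one_mul]

/-- circle actions with nonzero weights of which at most one is even -/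
theorem weights (hm : 2 ≤ m) [CompactSpace X] {w : Fin m → ℤ} {e : X ≃ₜ CS m}
    (h : ∀ u : Circle, IsoBy e (fun l => u ^ w l)) (hw : ∀ i, w i ≠ 0)
    (hev : ∀ i j, Even (w i) → Even (w j) → i = j)
    (r : ℝ) (hr : 0 < r) (hX : GeodSpace X) (hU : UniqGeod X r) :
    ClosedGeod X (8 * Metric.diam (univ : Set X)) := by
  classical
  have hd : 0 ≤ Metric.diam (univ : Set X) := Metric.diam_nonneg
  have hog : ∀ θ, IsoBy e (og (fun l => (w l : ℝ)) θ) := by
    intro θ
    have h1 := h (Circle.exp θ)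
    have h2 : (fun l => Circle.exp θ ^ w l) = og (fun l => (w l : ℝ)) θ := by
      funext l
      rw [exp_zpow]
      rfl
    rwa [h2] at h1
  have hpi := hog Real.pi
  by_cases he : ∃ i, Even (w i)
  · obtain ⟨i, hi⟩ := he
    obtain ⟨j, hj⟩ : ∃ j, i ≠ j := by
      by_cases hi0 : i = ⟨0, by omega⟩
      · exact ⟨⟨1, by omega⟩, by rw [hi0]; simp⟩
      · exact ⟨⟨0, by omega⟩, hi0⟩
    have h3 : og (fun l => (w l : ℝ)) Real.pi = sg' ({i} : Finset (Fin m)) := by
      funext l
      show Circle.exp (w l * Real.pi) = _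
      unfold sg'
      by_cases hl : l = i
      · rw [if_pos (Finset.mem_singleton.2 hl), hl, exp_pi_even _ hi]
      · rw [if_neg (fun h => hl (Finset.mem_singleton.1 h)), exp_pi_odd]
        exact fun h => hl (hev l i h hi)
    rw [h3] at hpi
    refine case_circle i j hj hpi _ hog ?_ r hr hX hU
    exact_mod_cast hw i
  · have h3 : og (fun l => (w l : ℝ)) Real.pi = sg' (∅ : Finset (Fin m)) := by
      funext l
      show Circle.exp (w l * Real.pi) = _
      unfold sg'
      rw [if_neg (Finset.notMem_empty l), exp_pi_odd]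
      exact fun h => he ⟨l, h⟩
    rw [h3] at hpi
    exact ClosedGeod.mono (case_even hpi hX (by omega))
      (mul_le_mul_of_nonneg_right (by norm_num) hd)

theorem root (n : ℤ) (hn : n ≠ 0) (u : Circle) : ∃ v : Circle, v ^ n = u := by
  refine ⟨Circle.exp (Complex.arg u / n), ?_⟩
  have hn' : (n : ℝ) ≠ 0 := by exact_mod_cast hn
  rw [exp_zpow, mul_div_cancel₀ _ hn']
  exact Circle.exp_arg u

/-- circle actions on the three-sphere -/
theorem three [CompactSpace X] {p q : ℤ} {e : X ≃ₜ CS 2}
    (h : ∀ u : Circle, IsoBy e ![u ^ p, u ^ q]) (hpq : p ≠ 0 ∨ q ≠ 0)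
    (r : ℝ) (hr : 0 < r) (hX : GeodSpace X) (hU : UniqGeod X r) :
    ClosedGeod X (8 * Metric.diam (univ : Set X)) := by
  classical
  have e8 : (8 : ℝ) * (((2 : ℕ) : ℝ) - 1) * Metric.diam (univ : Set X) =
      8 * Metric.diam (univ : Set X) := by
    push_cast
    ring
  by_cases hp : p = 0
  · have hq : q ≠ 0 := hpq.resolve_left (fun h => h hp)
    rw [← e8]
    refine case_plane (m := 2) (e := e) 0 1 (by simp) (fun u => ?_) r hr hX hU
    obtain ⟨v, hv⟩ := root q hq u
    have h1 := h v
    have h2 : (![v ^ p, v ^ q] : Fin 2 → Circle) = fun l => if l = 1 then u else 1 := by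
      funext l
      fin_cases l
      · simp [hp]
      · simp [hv]
    rwa [h2] at h1
  by_cases hq : q = 0
  · rw [← e8]
    refine case_plane (m := 2) (e := e) 1 0 (by simp) (fun u => ?_) r hr hX hU
    obtain ⟨v, hv⟩ := root p hp u
    have h1 := h v
    have h2 : (![v ^ p, v ^ q] : Fin 2 → Circle) = fun l => if l = 0 then u else 1 := by
      funext l
      fin_cases l
      · simp [hv]
      · simp [hq]
    rwa [h2] at h1
  -- both weights are nonzero
  have hg : (Int.gcd p q : ℤ) ≠ 0 := by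
    intro h0
    rw [Int.natCast_eq_zero, Int.gcd_eq_zero_iff] at h0
    exact hp h0.1
  obtain ⟨p', hp'⟩ := Int.gcd_dvd_left (a := p) (b := q)
  obtain ⟨q', hq'⟩ := Int.gcd_dvd_right (a := p) (b := q)
  refine weights (m := 2) le_rfl (e := e) (w := ![p', q']) (fun u => ?_) ?_ ?_ r hr hX hU
  · obtain ⟨v, hv⟩ := root _ hg u
    have h1 := h v
    have h2 : (![v ^ p, v ^ q] : Fin 2 → Circle) = fun l => u ^ (![p', q'] : Fin 2 → ℤ) l := by
      funext l
      fin_cases l
      · show v ^ p = u ^ p'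
        rw [← hv, ← zpow_mul, ← hp']
      · show v ^ q = u ^ q'
        rw [← hv, ← zpow_mul, ← hq']
    rwa [h2] at h1
  · intro i
    fin_cases i
    · show p' ≠ 0
      rintro rfl
      exact hp (by rw [hp', mul_zero])
    · show q' ≠ 0
      rintro rfl
      exact hq (by rw [hq', mul_zero])
  · have hne : ¬ (Even p' ∧ Even q') := by
      rintro ⟨⟨s, hs⟩, ⟨t, ht⟩⟩
      have h3 : (2 * (Int.gcd p q : ℤ)) ∣ (Int.gcd p q : ℤ) := by
        apply Int.dvd_coe_gcd
        · refine ⟨s, ?_⟩
          conv_lhs => rw [hp', hs]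
          ring
        · refine ⟨t, ?_⟩
          conv_lhs => rw [hq', ht]
          ring
      obtain ⟨c, hc⟩ := h3
      have h4 : (Int.gcd p q : ℤ) * (1 - 2 * c) = 0 := by
        have : (Int.gcd p q : ℤ) * (1 - 2 * c) = (Int.gcd p q : ℤ) - 2 * (Int.gcd p q : ℤ) * c := by
          ring
        rw [this, ← hc, sub_self]
      rcases mul_eq_zero.1 h4 with h5 | h5
      · exact hg h5
      · omega
    intro i j hi hj
    fin_cases i <;> fin_cases j
    · rfl
    · exact (hne ⟨hi, hj⟩).elim
    · exact (hne ⟨hj, hi⟩).elim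
    · rfl

end Pool.Agent.Helper8.GR
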